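import Pool.Agent.Helper43.SPH.Core

/-!
MP_3976d4_co: every order-preserving self-map of a poset of finite length has a fixed point if the
part below the special element `s` retracts downwards onto a poset without chains of three
elements.
-/

set_option autoImplicit false
set_option linter.unusedSectionVars false

universe u

namespace Pool.Agent.Helper43.SPH

variable {P : Type u} [PartialOrder P]

/-- cardinalities of chains below `x` -/
def cards (x : P) : Set ℕ :=
  {k | ∃ c : Finset P, IsChain (· ≤ ·) (c : Set P) ∧ (∀ y ∈ c, y ≤ x) ∧ c.card = k}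

lemma cards_zero (x : P) : 0 ∈ cards x :=
  ⟨∅, by simp, by simp, rfl⟩

/-- height of `x` -/
noncomputable def hgt (x : P) : ℕ := sSup (cards x)

lemma hgt_le {n : ℕ} (hn : ∀ c : Finset P, IsChain (· ≤ ·) (c : Set P) → c.card ≤ n) (x : P) :
    hgt x ≤ n := by
  refine csSup_le ⟨0, cards_zero x⟩ ?_
  rintro k ⟨c, h1, _, rfl⟩
  exact hn c h1

lemma hgt_lt {n : ℕ} (hn : ∀ c : Finset P, IsChain (· ≤ ·) (c : Set P) → c.card ≤ n) (x y : P)
    (h : x < y) : hgt x < hgt y := by
  classical
  have hb : ∀ z : P, BddAbove (cards z) := by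
    intro z
    refine ⟨n, ?_⟩
    rintro k ⟨c, h1, _, rfl⟩
    exact hn c h1
  obtain ⟨c, h1, h2, h3⟩ := Nat.sSup_mem ⟨0, cards_zero x⟩ (hb x)
  have hyc : y ∉ c := fun hy => absurd (h2 y hy) (not_le_of_gt h)
  have h4 : c.card + 1 ∈ cards y := by
    refine ⟨insert y c, ?_, ?_, ?_⟩
    · rw [Finset.coe_insert]
      exact h1.insert (fun b hb _ => Or.inr ((h2 b hb).trans h.le))
    · intro z hz
      rcases Finset.mem_insert.1 hz with rfl | hz
      · exact le_rfl
      · exact (h2 z hz).trans h.le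
    · exact Finset.card_insert_of_notMem hyc
  have h5 := le_csSup (hb y) h4
  have h6 : hgt x = c.card := h3.symm
  show hgt x < sSup (cards y)
  omega

section

variable {s : P} {f ρ : P → P}

lemma lub_left {a b z : P} (h : IsLUB ({a, b} : Set P) z) : a ≤ z := h.1 (by simp)

lemma lub_right {a b z : P} (h : IsLUB ({a, b} : Set P) z) : b ≤ z := h.1 (by simp)

lemma lub_le' {a b z w : P} (h : IsLUB ({a, b} : Set P) z) (h1 : a ≤ w) (h2 : b ≤ w) : z ≤ w := by
  apply h.2
  intro x hx
  rcases hx with rfl | hx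
  · exact h1
  · rw [Set.mem_singleton_iff] at hx
    rw [hx]
    exact h2

lemma glb_left {a b z : P} (h : IsGLB ({a, b} : Set P) z) : z ≤ a := h.1 (by simp)

lemma glb_right {a b z : P} (h : IsGLB ({a, b} : Set P) z) : z ≤ b := h.1 (by simp)

lemma le_glb' {a b z w : P} (h : IsGLB ({a, b} : Set P) z) (h1 : w ≤ a) (h2 : w ≤ b) : w ≤ z := by
  apply h.2
  intro x hx
  rcases hx with rfl | hx
  · exact h1
  · rw [Set.mem_singleton_iff] at hx
    rw [hx]
    exact h2

/-- The main theorem, lower form. -/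
theorem main (hn : ∃ n : ℕ, ∀ c : Finset P, IsChain (· ≤ ·) (c : Set P) → c.card ≤ n) (s : P)
    (ρ : P → P)
    (h1 : ∀ x : P, (∃ z : P, IsLUB ({s, x} : Set P) z) ∨ (∃ z : P, IsGLB ({s, x} : Set P) z))
    (hρ : ∀ d : P, d < s → ρ d ≤ d ∧ ρ (ρ d) = ρ d)
    (hρm : ∀ d e : P, d ≤ e → e < s → ρ d ≤ ρ e)
    (h3 : ∀ a b c : P, a < b → b < c → c < s → ρ a = a → ρ b = b → ρ c ≠ c)
    (h2 : ∀ x y m : P, x < y → (¬ ∃ z : P, IsGLB ({s, x} : Set P) z) →
      IsGLB ({s, y} : Set P) m → m < s → ∃ z : P, IsLUB ({ρ m, x} : Set P) z)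
    (f : P → P) (hf : Monotone f) : ∃ x : P, f x = x := by
  classical
  by_contra hfix
  push Not at hfix
  obtain ⟨n, hn⟩ := hn
  have hle : ∀ x, hgt x ≤ n := hgt_le hn
  have hlt : ∀ x y : P, x < y → hgt x < hgt y := hgt_lt hn
  have nle : ∀ x, ¬ x ≤ f x := by
    have key : ∀ k : ℕ, ∀ x, n - hgt x ≤ k → ¬ x ≤ f x := by
      intro k
      induction k with
      | zero =>
        intro x hk hx
        have h4 : x < f x := lt_of_le_of_ne hx (fun e => hfix x e.symm)
        have h5 := hlt _ _ h4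
        have h6 := hle (f x)
        omega
      | succ k ih =>
        intro x hk hx
        have h4 : x < f x := lt_of_le_of_ne hx (fun e => hfix x e.symm)
        have h5 := hlt _ _ h4
        have h6 := hle (f x)
        exact ih (f x) (by omega) (hf hx)
    exact fun x => key _ x le_rfl
  have nge : ∀ x, ¬ f x ≤ x := by
    have key : ∀ k : ℕ, ∀ x, hgt x ≤ k → ¬ f x ≤ x := by
      intro k
      induction k with
      | zero =>
        intro x hk hx
        have h4 : f x < x := lt_of_le_of_ne hx (hfix x)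
        have h5 := hlt _ _ h4
        omega
      | succ k ih =>
        intro x hk hx
        have h4 : f x < x := lt_of_le_of_ne hx (hfix x)
        have h5 := hlt _ _ h4
        exact ih (f x) (by omega) (hf hx)
    exact fun x => key _ x le_rfl
  -- the choices
  set A : P → Prop := fun z => ¬ ∃ m : P, IsGLB ({s, z} : Set P) m with hA
  set js : P → P := fun z => if h : ∃ j : P, IsLUB ({s, z} : Set P) j then h.choose else s with hjs
  set gl : P → P := fun z => if h : ∃ j : P, IsGLB ({s, z} : Set P) j then h.choose else s with hgl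
  set jd : P → P → P := fun d z => if h : ∃ j : P, IsLUB ({d, z} : Set P) j then h.choose else s
    with hjd
  have js_spec : ∀ z, A z → IsLUB ({s, z} : Set P) (js z) := by
    intro z hz
    have h : ∃ j : P, IsLUB ({s, z} : Set P) j := (h1 z).resolve_right hz
    simp only [hjs]
    rw [dif_pos h]
    exact h.choose_spec
  have gl_spec : ∀ z, ¬ A z → IsGLB ({s, z} : Set P) (gl z) := by
    intro z hz
    have h : ∃ j : P, IsGLB ({s, z} : Set P) j := not_not.1 hz
    simp only [hgl]
    rw [dif_pos h]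
    exact h.choose_spec
  have jd_spec : ∀ d z, (∃ j : P, IsLUB ({d, z} : Set P) j) → IsLUB ({d, z} : Set P) (jd d z) := by
    intro d z h
    simp only [hjd]
    rw [dif_pos h]
    exact h.choose_spec
  have gl_lt : ∀ w, ¬ A w → ¬ s ≤ w → gl w < s := by
    intro w hw hs
    refine lt_of_le_of_ne (glb_left (gl_spec w hw)) (fun e => hs ?_)
    rw [← e]
    exact glb_right (gl_spec w hw)
  refine Dat.absurd (P := P)
    { s := s, f := f, A := A, js := js, lab := fun w => ρ (gl w), jd := jd,
      B := fun b => b < s ∧ ρ b = b, ht := hgt, N := n, mono := hf, nle := nle, nge := nge,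
      ht_lt := hlt, ht_le := hle, hjs := ?_, B_le := fun b hb => hb.1.le, lab_B := ?_,
      lab_le := ?_, le_lab := ?_, hjd := ?_, no3 := ?_ }
  · intro z hz
    have h := js_spec z hz
    exact ⟨lub_left h, lub_right h, fun u h4 h5 => lub_le' h h4 h5⟩
  · intro w hw hs
    have h := gl_lt w hw hs
    exact ⟨(hρ _ h).1.trans_lt h, (hρ _ h).2⟩
  · intro w hw hs
    exact (hρ _ (gl_lt w hw hs)).1.trans (glb_right (gl_spec w hw))
  · intro w hw hs b hb hbw
    have h := gl_lt w hw hs
    have h4 : b ≤ gl w := le_glb' (gl_spec w hw) hb.1.le hbw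
    have h5 := hρm b (gl w) h4 h
    rw [hb.2] at h5
    exact h5
  · intro z w hz hzw hw hs
    have hne : z ≠ w := by
      rintro rfl
      exact hw hz
    have h4 := h2 z w (gl w) (lt_of_le_of_ne hzw hne) hz (gl_spec w hw) (gl_lt w hw hs)
    have h := jd_spec _ _ h4
    exact ⟨lub_left h, lub_right h, fun u h5 h6 => lub_le' h h5 h6⟩
  · have key : ∀ a b c : P, (a < s ∧ ρ a = a) → (b < s ∧ ρ b = b) → (c < s ∧ ρ c = c) → a ≤ b →
        b ≤ c → a = b ∨ b = c := by
      intro a b c ha hb hc hab hbc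
      by_contra hcon
      push Not at hcon
      exact h3 a b c (lt_of_le_of_ne hab hcon.1) (lt_of_le_of_ne hbc hcon.2) hc.1 ha.2 hb.2 hc.2
    intro a b c ha hb hc hab hac hbc
    rcases hab with hab | hab <;> rcases hac with hac | hac <;> rcases hbc with hbc | hbc
    · rcases key a b c ha hb hc hab hbc with h | h
      · exact Or.inl h
      · exact Or.inr (Or.inr h)
    · rcases key a c b ha hc hb hac hbc with h | h
      · exact Or.inr (Or.inl h)
      · exact Or.inr (Or.inr h.symm)
    · exact Or.inl (le_antisymm hab (hbc.trans hac))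
    · rcases key c a b hc ha hb hac hab with h | h
      · exact Or.inr (Or.inl h.symm)
      · exact Or.inl h
    · rcases key b a c hb ha hc hab hac with h | h
      · exact Or.inl h.symm
      · exact Or.inr (Or.inl h)
    · exact Or.inl (le_antisymm (hac.trans hbc) hab)
    · rcases key b c a hb hc ha hbc hac with h | h
      · exact Or.inr (Or.inr h)
      · exact Or.inr (Or.inl h.symm)
    · rcases key c b a hc hb ha hbc hab with h | h
      · exact Or.inr (Or.inr h.symm)
      · exact Or.inl h.symm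

end

/-- The dual form. -/
theorem main_dual (hn : ∃ n : ℕ, ∀ c : Finset P, IsChain (· ≤ ·) (c : Set P) → c.card ≤ n) (s : P)
    (ρ : P → P)
    (h1 : ∀ x : P, (∃ z : P, IsLUB ({s, x} : Set P) z) ∨ (∃ z : P, IsGLB ({s, x} : Set P) z))
    (hρ : ∀ d : P, s < d → d ≤ ρ d ∧ ρ (ρ d) = ρ d)
    (hρm : ∀ d e : P, e ≤ d → s < e → ρ e ≤ ρ d)
    (h3 : ∀ a b c : P, b < a → c < b → s < c → ρ a = a → ρ b = b → ρ c ≠ c)
    (h2 : ∀ x y m : P, y < x → (¬ ∃ z : P, IsLUB ({s, x} : Set P) z) →
      IsLUB ({s, y} : Set P) m → s < m → ∃ z : P, IsGLB ({ρ m, x} : Set P) z)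
    (f : P → P) (hf : Monotone f) : ∃ x : P, f x = x := by
  have hn' : ∃ n : ℕ, ∀ c : Finset Pᵒᵈ, IsChain (· ≤ ·) (c : Set Pᵒᵈ) → c.card ≤ n := by
    obtain ⟨n, hn⟩ := hn
    refine ⟨n, fun c hc => hn c ?_⟩
    intro x hx y hy hxy
    exact (hc hx hy hxy).symm
  exact main (P := Pᵒᵈ) hn' (OrderDual.toDual s) ρ (fun x => (h1 x).symm) hρ
    (fun d e h4 h5 => hρm d e h4 h5) h3 h2 f (fun a b h => hf h)

end Pool.Agent.Helper43.SPH
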