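import Pool.Agent.Helper43.SPH.Lay
import Pool.Agent.Helper43.SPH.Main

/-!
MP_3976d4_co: special elements `s` of height at most three above which only maximal elements
lie.
-/

set_option autoImplicit false
set_option linter.unusedSectionVars false

universe u

namespace Pool.Agent.Helper43.SPH

variable {P : Type u} [PartialOrder P]

/-- The dual labels are constant if all elements above `s` are maximal. -/
lemma dual_part {s : P} {f : P → P} {A : P → Prop} {js gl : P → P} {n : ℕ}
    (hle : ∀ x : P, hgt x ≤ n) (hlt : ∀ x y : P, x < y → hgt x < hgt y) (hf : Monotone f)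
    (nle : ∀ x, ¬ x ≤ f x) (nge : ∀ x, ¬ f x ≤ x)
    (js_spec : ∀ z, A z → s ≤ js z ∧ z ≤ js z ∧ ∀ u, s ≤ u → z ≤ u → js z ≤ u)
    (gl_spec : ∀ z, ¬ A z → gl z ≤ s ∧ gl z ≤ z ∧ ∀ u, u ≤ s → u ≤ z → u ≤ gl z)
    (hA : ∀ z, A z → ¬ z ≤ s)
    (h4 : ∀ u v : P, s < u → ¬ u < v) :
    ∃ (u0 : P) (Q : P → Prop), s < u0 ∧ ¬ A (f u0) ∧ ¬ s ≤ f u0 ∧
      (∀ x, gl (f u0) ≤ x → x ≤ u0 → Q x) ∧ (∀ x, Q x → ¬ A (f x) → Q (gl (f x))) ∧
      (∀ x, Q x → A (f x) → js (f x) = u0) := by
  let d : Lay Pᵒᵈ :=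
    { s := OrderDual.toDual s
      f := fun x => OrderDual.toDual (f (OrderDual.ofDual x))
      G := fun _ => True
      A := fun x => ¬ A (f (OrderDual.ofDual x))
      js := fun x => OrderDual.toDual (gl (f (OrderDual.ofDual x)))
      lab := fun x => OrderDual.toDual (js (f (OrderDual.ofDual x)))
      B := fun x => s < OrderDual.ofDual x
      ht := fun x => n - hgt (OrderDual.ofDual x)
      N := n
      mono := fun x y h => hf h
      nle := fun x => nge (OrderDual.ofDual x)
      nge := fun x => nle (OrderDual.ofDual x)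
      ht_lt := by
        intro x y h
        have h1 := hlt (OrderDual.ofDual y) (OrderDual.ofDual x) h
        have h2 := hle (OrderDual.ofDual x)
        show n - hgt (OrderDual.ofDual x) < n - hgt (OrderDual.ofDual y)
        omega
      ht_le := fun x => Nat.sub_le _ _
      hjs := by
        intro x _ hx
        obtain ⟨h1, h2, h3⟩ := gl_spec _ hx
        exact ⟨h1, h2, fun u h5 h6 => h3 u h5 h6⟩
      G_js := fun _ _ _ _ => trivial
      B_le := fun b hb => le_of_lt (show s < OrderDual.ofDual b from hb)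
      lab_B := by
        intro x _ hx _
        have hx' := not_not.1 hx
        obtain ⟨h1, h2, h3⟩ := js_spec _ hx'
        refine lt_of_le_of_ne h1 (fun e => hA _ hx' ?_)
        calc f (OrderDual.ofDual x) ≤ js (f (OrderDual.ofDual x)) := h2
          _ = s := e.symm
      lab_le := by
        intro x _ hx _
        exact (js_spec _ (not_not.1 hx)).2.1
      le_lab := by
        intro x _ hx _ b hb hbx
        exact (js_spec _ (not_not.1 hx)).2.2 _ (le_of_lt (show s < OrderDual.ofDual b from hb))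
          hbx }
  have hmax : ∀ u v : Pᵒᵈ, d.B u → d.B v → Cmp u v → u = v := by
    intro u v hu hv h
    rcases h with h | h
    · by_contra hne
      exact h4 (OrderDual.ofDual v) (OrderDual.ofDual u) hv
        (lt_of_le_of_ne h (fun e => hne e.symm))
    · by_contra hne
      exact h4 (OrderDual.ofDual u) (OrderDual.ofDual v) hu (lt_of_le_of_ne h hne)
  have hgs : d.Gd (OrderDual.toDual s) := ⟨trivial, Lay.Inv.self _⟩
  have hB0 : s < OrderDual.ofDual (d.D (OrderDual.toDual s)) := Lay.D_B hgs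
  obtain ⟨y, _, hy1, hy2, _, hy4⟩ := Lay.D_spec hgs
  have hy2' : A (f (OrderDual.ofDual y)) := not_not.1 hy2
  set u0 : P := OrderDual.ofDual (d.D (OrderDual.toDual s)) with hu0
  have hu0' : u0 = js (f (OrderDual.ofDual y)) := hy4
  have hgu : d.Gd (OrderDual.toDual u0) := by
    refine ⟨trivial, fun v hv _ => ?_⟩
    have hv' : OrderDual.ofDual v ≤ s := hv
    exact hv'.trans hB0.le
  have hDu : d.D (OrderDual.toDual u0) = OrderDual.toDual u0 := by
    refine hmax _ _ (Lay.D_B hgu) hB0 ?_
    refine Lay.cmp (x := OrderDual.toDual u0) (y := OrderDual.toDual s) hgu hgs hB0.le ?_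
    intro hA1
    exact (gl_spec _ hA1).1
  have hAu : ¬ A (f u0) := by
    intro h
    have h5 : d.D (OrderDual.toDual u0) = OrderDual.toDual (js (f u0)) :=
      Lay.D_stop (d := d) (x := OrderDual.toDual u0) (fun h' => h' h)
    rw [hDu] at h5
    have h6 : u0 = js (f u0) := h5
    have h7 := (js_spec _ h).2.1
    rw [← h6] at h7
    exact nge u0 h7
  have hsu : ¬ s ≤ f u0 := by
    intro h
    refine nle u0 ?_
    have h5 : OrderDual.ofDual y ≤ u0 := le_trans hy1 hB0.le
    have h6 : js (f (OrderDual.ofDual y)) ≤ f u0 := (js_spec _ hy2').2.2 _ h (hf h5)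
    rw [← hu0'] at h6
    exact h6
  refine ⟨u0, fun x => d.Gd (OrderDual.toDual x) ∧ d.D (OrderDual.toDual x) =
    OrderDual.toDual u0, hB0, hAu, hsu, ?_, ?_, ?_⟩
  · intro x hx1 hx2
    have hgx : d.Gd (OrderDual.toDual x) := by
      refine ⟨trivial, fun v hv hv2 => ?_⟩
      have hv' : OrderDual.ofDual v ≤ s := hv
      have hv2' : OrderDual.ofDual v ≤ f x := hv2
      exact ((gl_spec _ hAu).2.2 _ hv' (hv2'.trans (hf hx2))).trans hx1
    refine ⟨hgx, ?_⟩
    rw [← hDu]
    refine (hmax _ _ (Lay.D_B hgu) (Lay.D_B hgx) ?_).symm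
    exact Lay.cmp (x := OrderDual.toDual u0) (y := OrderDual.toDual x) hgu hgx hx2
      (fun _ => hx1)
  · intro x hx hxA
    have h5 : d.A (OrderDual.toDual x) := hxA
    refine ⟨Lay.js_gd hx.1 h5, ?_⟩
    rw [← hx.2]
    exact (Lay.D_step hx.1 h5).symm
  · intro x hx hxA
    have h5 : d.D (OrderDual.toDual x) = OrderDual.toDual (js (f x)) :=
      Lay.D_stop (d := d) (x := OrderDual.toDual x) (fun h' => h' hxA)
    rw [hx.2] at h5
    exact h5.symm

/-- The walks attached to the irrelevant starting points: a two step path. -/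
lemma stp_single {z v : P} (h : z ≠ v) : stp [z] v = [v, z] := by
  unfold stp
  rw [if_neg, if_neg]
  · simp
  · simpa using h

/-- Coheight at most one and height at most three, or coheight zero; exactly the conditions (i) and
(ii). -/
theorem main_coh (hn : ∃ n : ℕ, ∀ c : Finset P, IsChain (· ≤ ·) (c : Set P) → c.card ≤ n) (s : P)
    (h1 : ∀ x : P, (∃ z : P, IsLUB ({s, x} : Set P) z) ∨ (∃ z : P, IsGLB ({s, x} : Set P) z))
    (h2 : ∀ x y : P, x < y → (¬ ∃ z : P, IsGLB ({s, x} : Set P) z) →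
      ∀ m : P, IsGLB ({s, y} : Set P) m → ∃ z : P, IsLUB ({m, x} : Set P) z)
    (h3 : (∀ a b c e : P, a < b → b < c → c < e → ¬ e < s) ∨ IsMax s)
    (h4 : ∀ u v : P, s < u → ¬ u < v)
    (f : P → P) (hf : Monotone f) : ∃ x : P, f x = x := by
  classical
  by_contra hfix
  push Not at hfix
  obtain ⟨n, hn⟩ := hn
  have hle : ∀ x, hgt x ≤ n := hgt_le hn
  have hlt : ∀ x y : P, x < y → hgt x < hgt y := hgt_lt hn
  have nle : ∀ x, ¬ x ≤ f x := by
    have key : ∀ k : ℕ, ∀ x, n - hgt x ≤ k → ¬ x ≤ f x := by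
      intro k
      induction k with
      | zero =>
        intro x hk hx
        have h4 : x < f x := lt_of_le_of_ne hx (fun e => hfix x e.symm)
        have h5 := hlt _ _ h4
        have h6 := hle (f x)
        omega
      | succ k ih =>
        intro x hk hx
        have h4 : x < f x := lt_of_le_of_ne hx (fun e => hfix x e.symm)
        have h5 := hlt _ _ h4
        have h6 := hle (f x)
        exact ih (f x) (by omega) (hf hx)
    exact fun x => key _ x le_rfl
  have nge : ∀ x, ¬ f x ≤ x := by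
    have key : ∀ k : ℕ, ∀ x, hgt x ≤ k → ¬ f x ≤ x := by
      intro k
      induction k with
      | zero =>
        intro x hk hx
        have h4 : f x < x := lt_of_le_of_ne hx (hfix x)
        have h5 := hlt _ _ h4
        omega
      | succ k ih =>
        intro x hk hx
        have h4 : f x < x := lt_of_le_of_ne hx (hfix x)
        have h5 := hlt _ _ h4
        exact ih (f x) (by omega) (hf hx)
    exact fun x => key _ x le_rfl
  -- the choices
  set A : P → Prop := fun z => ¬ ∃ m : P, IsGLB ({s, z} : Set P) m with hA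
  set js : P → P := fun z => if h : ∃ j : P, IsLUB ({s, z} : Set P) j then h.choose else s with hjs
  set gl : P → P := fun z => if h : ∃ j : P, IsGLB ({s, z} : Set P) j then h.choose else s with hgl
  set jd : P → P → P := fun d z => if h : ∃ j : P, IsLUB ({d, z} : Set P) j then h.choose else s
    with hjd
  have js_spec : ∀ z, A z → s ≤ js z ∧ z ≤ js z ∧ ∀ u, s ≤ u → z ≤ u → js z ≤ u := by
    intro z hz
    have h : ∃ j : P, IsLUB ({s, z} : Set P) j := (h1 z).resolve_right hz
    have h' : IsLUB ({s, z} : Set P) (js z) := by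
      simp only [hjs]
      rw [dif_pos h]
      exact h.choose_spec
    exact ⟨lub_left h', lub_right h', fun u h5 h6 => lub_le' h' h5 h6⟩
  have gl_glb : ∀ z, ¬ A z → IsGLB ({s, z} : Set P) (gl z) := by
    intro z hz
    have h : ∃ j : P, IsGLB ({s, z} : Set P) j := not_not.1 hz
    simp only [hgl]
    rw [dif_pos h]
    exact h.choose_spec
  have gl_spec : ∀ z, ¬ A z → gl z ≤ s ∧ gl z ≤ z ∧ ∀ u, u ≤ s → u ≤ z → u ≤ gl z := by
    intro z hz
    have h := gl_glb z hz
    exact ⟨glb_left h, glb_right h, fun u h5 h6 => le_glb' h h5 h6⟩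
  have jd_spec : ∀ d z, (∃ j : P, IsLUB ({d, z} : Set P) j) →
      d ≤ jd d z ∧ z ≤ jd d z ∧ ∀ u, d ≤ u → z ≤ u → jd d z ≤ u := by
    intro d z h
    have h' : IsLUB ({d, z} : Set P) (jd d z) := by
      simp only [hjd]
      rw [dif_pos h]
      exact h.choose_spec
    exact ⟨lub_left h', lub_right h', fun u h5 h6 => lub_le' h' h5 h6⟩
  have hAle : ∀ z, A z → ¬ z ≤ s := by
    intro z hz hzs
    refine hz ⟨z, ?_, ?_⟩
    · rintro x (rfl | rfl)
      · exact hzs
      · exact le_rfl
    · intro x hx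
      exact hx (Or.inr rfl)
  have jd_ex : ∀ x y, A (f x) → f x ≤ f y → ¬ A (f y) →
      gl (f y) ≤ jd (gl (f y)) (f x) ∧ f x ≤ jd (gl (f y)) (f x) ∧
        ∀ u, gl (f y) ≤ u → f x ≤ u → jd (gl (f y)) (f x) ≤ u := by
    intro x y hx hxy hy
    have hne : f x ≠ f y := by
      intro e
      rw [e] at hx
      exact hy hx
    exact jd_spec _ _ (h2 (f x) (f y) (lt_of_le_of_ne hxy hne) hx _ (gl_glb _ hy))
  obtain ⟨u0, Q, hu, hAu, hsu, hQ1, hQ2, hQ3⟩ :=
    dual_part hle hlt hf nle nge js_spec gl_spec hAle h4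
  replace h3 : ∀ a b c e : P, a < b → b < c → c < e → ¬ e < s :=
    h3.resolve_right (fun hm => hm.not_lt hu)
  set z1 : P := gl (f u0) with hz1
  have hz1s : z1 < s := by
    refine lt_of_le_of_ne (gl_spec _ hAu).1 (fun e => hsu ?_)
    rw [← e]
    exact (gl_spec _ hAu).2.1
  have hz1u : z1 ≤ u0 := hz1s.le.trans hu.le
  have hz1f : z1 ≤ f u0 := (gl_spec _ hAu).2.1
  have hQle : ∀ x, Q x → A (f x) → f x ≤ u0 := by
    intro x hx hxA
    have h5 := (js_spec _ hxA).2.1
    rw [hQ3 x hx hxA] at h5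
    exact h5
  have hsjs : ∀ z, A z → s < js z := by
    intro z hz
    refine lt_of_le_of_ne (js_spec _ hz).1 (fun e => hAle z hz ?_)
    have h5 := (js_spec _ hz).2.1
    rw [← e] at h5
    exact h5
  -- relevance goes up
  have Gup : ∀ x y, A (f x) → f x ≤ u0 → x ≤ y → A (f y) → f y ≤ u0 := by
    intro x y hx hxu hxy hy
    have h5 : js (f x) = u0 := by
      by_contra hne
      exact h4 _ _ (hsjs _ hx)
        (lt_of_le_of_ne ((js_spec _ hx).2.2 _ hu.le hxu) hne)
    have h6 : js (f x) ≤ js (f y) :=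
      (js_spec _ hx).2.2 _ (js_spec _ hy).1 ((hf hxy).trans (js_spec _ hy).2.1)
    have h7 : js (f x) = js (f y) := by
      by_contra hne
      exact h4 _ _ (hsjs _ hx) (lt_of_le_of_ne h6 hne)
    rw [← h5, h7]
    exact (js_spec _ hy).2.1
  let d : Lay2 P :=
    { s := z1
      f := f
      G := fun x => x ≤ u0 ∧ (A (f x) → f x ≤ u0)
      A := fun x => A (f x)
      js := fun x => jd z1 (f x)
      lab := fun x => gl (f x)
      B := fun b => b < z1
      ht := hgt
      N := n
      mono := hf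
      nle := nle
      nge := nge
      ht_lt := hlt
      ht_le := hle
      hjs := fun x hG hx => jd_ex x u0 hx (hf hG.1) hAu
      G_js := by
        intro x hG hx hxj
        refine ⟨(jd_ex x u0 hx (hf hG.1) hAu).2.2 _ hz1u (hG.2 hx), ?_⟩
        exact Gup x _ hx (hG.2 hx) hxj
      B_le := fun b hb => hb.le
      lab_B := by
        intro x hG hx hz
        have h5 : gl (f x) ≤ z1 := (gl_spec _ hAu).2.2 _ (gl_spec _ hx).1
          ((gl_spec _ hx).2.1.trans (hf hG.1))
        refine lt_of_le_of_ne h5 (fun e => hz ?_)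
        rw [← e]
        exact (gl_spec _ hx).2.1
      lab_le := fun x _ hx _ => (gl_spec _ hx).2.1
      le_lab := fun x _ hx _ b hb hbx =>
        (gl_spec _ hx).2.2 _ (hb.le.trans hz1s.le) hbx
      jd := fun b x => jd b (f x)
      hjd := fun x y _ hx _ hxy hy _ => jd_ex x y hx hxy hy
      G_jd := by
        intro x y hG hx _ hxy hy _ hxj
        refine ⟨(jd_ex x y hx hxy hy).2.2 _ ((gl_spec _ hy).1.trans hu.le) (hG.2 hx), ?_⟩
        exact Gup x _ hx (hG.2 hx) hxj
      no3 := by
        have key : ∀ a b c : P, a < z1 → b < z1 → c < z1 → a ≤ b → b ≤ c → a = b ∨ b = c := by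
          intro a b c ha hb hc hab hbc
          by_contra hcon
          push Not at hcon
          exact h3 a b c z1 (lt_of_le_of_ne hab hcon.1) (lt_of_le_of_ne hbc hcon.2) hc hz1s
        intro a b c ha hb hc hab hac hbc
        rcases hab with hab | hab <;> rcases hac with hac | hac <;> rcases hbc with hbc | hbc
        · rcases key a b c ha hb hc hab hbc with h | h
          · exact Or.inl h
          · exact Or.inr (Or.inr h)
        · rcases key a c b ha hc hb hac hbc with h | h
          · exact Or.inr (Or.inl h)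
          · exact Or.inr (Or.inr h.symm)
        · exact Or.inl (le_antisymm hab (hbc.trans hac))
        · rcases key c a b hc ha hb hac hab with h | h
          · exact Or.inr (Or.inl h.symm)
          · exact Or.inl h
        · rcases key b a c hb ha hc hab hac with h | h
          · exact Or.inl h.symm
          · exact Or.inr (Or.inl h)
        · exact Or.inl (le_antisymm (hac.trans hbc) hab)
        · rcases key b c a hb hc ha hbc hac with h | h
          · exact Or.inr (Or.inr h)
          · exact Or.inr (Or.inl h.symm)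
        · rcases key c b a hc hb ha hbc hab with h | h
          · exact Or.inr (Or.inr h.symm)
          · exact Or.inl h.symm }
  have hQz1 : Q z1 := hQ1 z1 le_rfl hz1u
  have hGz1 : d.G z1 := ⟨hz1u, fun h => hQle z1 hQz1 h⟩
  -- irrelevant starting points
  have hbad : ∀ b, d.B b → ¬ d.G b → A (f b) ∧ ¬ f b ≤ u0 := by
    intro b hb hg
    have h5 : b ≤ u0 := (show b < z1 from hb).le.trans hz1u
    refine ⟨?_, ?_⟩
    · by_contra h6
      exact hg ⟨h5, fun h7 => absurd h6 h7⟩
    · intro h6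
      exact hg ⟨h5, fun _ => h6⟩
  set z2 : P := gl (f z1) with hz2
  set z3 : P := gl (f z2) with hz3
  have hAz1 : ∀ b, d.B b → ¬ d.G b → ¬ A (f z1) := by
    intro b hb hg h5
    have h6 := hbad b hb hg
    exact h6.2 ((hf (show b < z1 from hb).le).trans (hQle z1 hQz1 h5))
  have hDz : ∀ b, d.B b → ¬ d.G b → d.D z1 = z2 := by
    intro b hb hg
    exact Lay.D_stop (d := d.toLay) (x := z1) (hAz1 b hb hg)
  have hz2z1 : ∀ b, d.B b → ¬ d.G b → z2 < z1 := by
    intro b hb hg
    exact d.lab_B z1 hGz1 (hAz1 b hb hg) (nle z1)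
  have hQz2 : ∀ b, d.B b → ¬ d.G b → Q z2 := fun b hb hg => hQ2 z1 hQz1 (hAz1 b hb hg)
  -- irrelevant points below z2
  have hAz2 : ∀ b, d.B b → ¬ d.G b → b ≤ z2 → ¬ A (f z2) := by
    intro b hb hg hb2 h5
    have h6 := hbad b hb hg
    exact h6.2 ((hf hb2).trans (hQle z2 (hQz2 b hb hg) h5))
  have hz3z2 : ∀ b, d.B b → ¬ d.G b → b ≤ z2 → z3 < z2 := by
    intro b hb hg hb2
    have h5 := hAz2 b hb hg hb2
    have h6 : z3 ≤ z2 := (gl_spec _ (hAz1 b hb hg)).2.2 _ (gl_spec _ h5).1
      ((gl_spec _ h5).2.1.trans (hf (hz2z1 b hb hg).le))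
    refine lt_of_le_of_ne h6 (fun e => nle z2 ?_)
    have h7 := (gl_spec _ h5).2.1
    rw [← hz3, e] at h7
    exact h7
  have hbz3 : ∀ b, d.B b → ¬ d.G b → b ≤ z2 → ¬ b ≤ z3 := by
    intro b hb hg hb2 hb3
    have h5 := hAz2 b hb hg hb2
    have hQz3 : Q z3 := hQ2 z2 (hQz2 b hb hg) h5
    by_cases h6 : A (f z3)
    · exact (hbad b hb hg).2 ((hf hb3).trans (hQle z3 hQz3 h6))
    · have h7 : gl (f z3) ≤ z3 := (gl_spec _ h5).2.2 _ (gl_spec _ h6).1
        ((gl_spec _ h6).2.1.trans (hf (hz3z2 b hb hg hb2).le))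
      have h8 : gl (f z3) < z3 := by
        refine lt_of_le_of_ne h7 (fun e => nle z3 ?_)
        have h9 := (gl_spec _ h6).2.1
        rw [e] at h9
        exact h9
      exact h3 _ _ _ _ h8 (hz3z2 b hb hg hb2) (hz2z1 b hb hg) hz1s
  have hred2 : ∀ b, d.B b → ¬ d.G b → Red d.B (d.D z1) [z2] := by
    intro b hb hg
    exact ⟨(hDz b hb hg).symm, hz2z1 b hb hg⟩
  have hred3 : ∀ b, d.B b → ¬ d.G b → b ≤ z2 → Red d.B (d.D z1) [z3, z2] := by
    intro b hb hg hb2
    have h5 := hz3z2 b hb hg hb2
    exact ⟨h5.trans (hz2z1 b hb hg), h5.ne, Or.inl h5.le, by simp, hred2 b hb hg⟩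
  refine Lay2.absurd d hGz1 (fun b => if b ≤ z2 then [z3, z2] else [z2]) 2 ?_ ?_ ?_ ?_
  · intro b hb hg
    by_cases hb2 : b ≤ z2
    · simp only [if_pos hb2]
      refine ⟨hred3 b hb hg hb2, ?_, by simp⟩
      intro e
      have e' : z3 = b := by simpa using e
      exact hbz3 b hb hg hb2 e'.ge
    · simp only [if_neg hb2]
      refine ⟨hred2 b hb hg, ?_, by simp⟩
      intro e
      have e' : z2 = b := by simpa using e
      exact hb2 e'.ge
  · intro a b ha hb hab hga hgb
    by_cases hb2 : b ≤ z2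
    · simp only [if_pos hb2, if_pos (hab.le.trans hb2)]
      exact Relation.ReflTransGen.refl
    · by_cases ha2 : a ≤ z2
      · simp only [if_neg hb2, if_pos ha2]
        refine Relation.ReflTransGen.single ⟨Or.inr (Or.inl ⟨z3, rfl⟩), ?_⟩
        rintro ⟨e1, _⟩
        have e1' : z3 = b := by simpa using e1
        exact hb2 (e1' ▸ (hz3z2 a ha hga ha2).le)
      · simp only [if_neg hb2, if_neg ha2]
        exact Relation.ReflTransGen.refl
  · intro a b ha hb hab hga hgb
    have hbad' := hbad a ha hga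
    have hbA : ¬ A (f b) := by
      intro h5
      exact hbad'.2 ((hf hab.le).trans (hgb.2 h5))
    have h5 : d.cl b b (d.st b) = stp [z2] (gl (f b)) := by
      rw [Lay2.cl_stop _ (fun h => hbA h.1)]
      show stp [d.D z1] (d.D b) = _
      rw [hDz a ha hga, Lay.D_stop (d := d.toLay) (x := b) hbA]
    rw [h5]
    by_cases hbz : b = z2
    · have h6 : a ≤ z2 := hbz ▸ hab.le
      have h7 : gl (f b) = z3 := by rw [hbz]
      simp only [if_pos h6]
      rw [h7, stp_single (hz3z2 a ha hga h6).ne']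
    · have h6 : Relation.ReflTransGen (Ok b a) [z2] (stp [z2] (gl (f b))) := by
        refine Relation.ReflTransGen.single ⟨adj_stp _ _, ?_⟩
        rintro ⟨e1, _⟩
        have e1' : z2 = b := by simpa using e1
        exact hbz e1'.symm
      by_cases ha2 : a ≤ z2
      · simp only [if_pos ha2]
        refine Relation.ReflTransGen.head ⟨Or.inr (Or.inl ⟨z3, rfl⟩), ?_⟩ h6
        rintro ⟨_, e2⟩
        have e2' : z2 = a := by simpa using e2
        exact hAz2 a ha hga ha2 (e2' ▸ hbad'.1)
      · simp only [if_neg ha2]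
        exact h6
  · intro a b ha hb hab hga hgb
    have hbad' := hbad b hb hgb
    have haA : ¬ A (f a) := by
      intro h5
      exact hbad'.2 (Gup a b h5 (hga.2 h5) hab.le hbad'.1)
    have h5 : d.cl a a (d.st a) = stp [z2] (gl (f a)) := by
      rw [Lay2.cl_stop _ (fun h => haA h.1)]
      show stp [d.D z1] (d.D a) = _
      rw [hDz b hb hgb, Lay.D_stop (d := d.toLay) (x := a) haA]
    rw [h5]
    have hb2 : ¬ b ≤ z2 := by
      intro h6
      have h7 : b ≠ z2 := by
        intro e
        exact hAz2 b hb hgb h6 (e ▸ hbad'.1)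
      exact h3 _ _ _ _ hab (lt_of_le_of_ne h6 h7) (hz2z1 b hb hgb) hz1s
    simp only [if_neg hb2]
    refine Relation.ReflTransGen.single ⟨(adj_stp _ _).symm, ?_⟩
    rintro ⟨e1, e2⟩
    rw [head_stp] at e1
    have e1' : gl (f a) = b := Option.some.inj e1
    have h6 := (gl_spec _ haA).2.1
    rw [e1'] at h6
    exact nle a (hab.le.trans h6)

/-- All cases: height at most two; or coheight at most one and height at most three; or `s`
maximal. -/
theorem main_four (hn : ∃ n : ℕ, ∀ c : Finset P, IsChain (· ≤ ·) (c : Set P) → c.card ≤ n) (s : P)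
    (h1 : ∀ x : P, (∃ z : P, IsLUB ({s, x} : Set P) z) ∨ (∃ z : P, IsGLB ({s, x} : Set P) z))
    (h2 : ∀ x y : P, x < y → (¬ ∃ z : P, IsGLB ({s, x} : Set P) z) →
      ∀ m : P, IsGLB ({s, y} : Set P) m → ∃ z : P, IsLUB ({m, x} : Set P) z)
    (h3 : (∀ a b c : P, a < b → b < c → ¬ c < s) ∨
      ((∀ u v : P, s < u → ¬ u < v) ∧
        ((∀ a b c e : P, a < b → b < c → c < e → ¬ e < s) ∨ IsMax s)))
    (f : P → P) (hf : Monotone f) : ∃ x : P, f x = x := by
  rcases h3 with h3 | ⟨h3, h4⟩
  · exact main hn s id h1 (fun d _ => ⟨le_rfl, rfl⟩) (fun d e h _ => h)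
      (fun a b c hab hbc hcs _ _ => absurd hcs (h3 a b c hab hbc))
      (fun x y m hxy hx hm _ => h2 x y hxy hx m hm) f hf
  · exact main_coh hn s h1 h2 h4 h3 f hf

/-- Chains of at most five elements. -/
theorem main_length_four
    (hn : ∀ c : Finset P, IsChain (· ≤ ·) (c : Set P) → c.card ≤ 5) (s : P)
    (h1 : ∀ x : P, (∃ z : P, IsLUB ({s, x} : Set P) z) ∨ (∃ z : P, IsGLB ({s, x} : Set P) z))
    (h2 : ∀ x y : P, x < y → (¬ ∃ z : P, IsGLB ({s, x} : Set P) z) →
      ∀ m : P, IsGLB ({s, y} : Set P) m → ∃ z : P, IsLUB ({m, x} : Set P) z)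
    (f : P → P) (hf : Monotone f) : ∃ x : P, f x = x := by
  classical
  have h6 : ∀ l : Fin 6 → P, StrictMono l → False := by
    intro l hl
    have h := hn (Finset.univ.image l) (by
      intro x hx y hy _
      rw [Finset.coe_image] at hx hy
      obtain ⟨i, -, rfl⟩ := hx
      obtain ⟨j, -, rfl⟩ := hy
      rcases le_total i j with h | h
      · exact Or.inl (hl.monotone h)
      · exact Or.inr (hl.monotone h))
    rw [Finset.card_image_of_injective _ hl.injective] at h
    simp at h
  have hsm : ∀ a b c d e g : P, a < b → b < c → c < d → d < e → e < g → False := by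
    intro a b c d e g h1 h2 h3 h4 h5
    refine h6 ![a, b, c, d, e, g] ?_
    refine Fin.strictMono_iff_lt_succ.2 ?_
    intro i
    fin_cases i
    · exact h1
    · exact h2
    · exact h3
    · exact h4
    · exact h5
  refine main_four ⟨5, hn⟩ s h1 h2 ?_ f hf
  by_cases h3 : ∀ a b c : P, a < b → b < c → ¬ c < s
  · exact Or.inl h3
  · right
    push Not at h3
    obtain ⟨a, b, c, hab, hbc, hcs⟩ := h3
    refine ⟨fun u v hu huv => hsm a b c s u v hab hbc hcs hu huv, ?_⟩
    by_cases h4 : IsMax s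
    · exact Or.inr h4
    · left
      intro a' b' c' e' h5 h6 h7 h8
      rw [not_isMax_iff] at h4
      obtain ⟨u, hu⟩ := h4
      exact hsm a' b' c' e' s u h5 h6 h7 h8 hu

end Pool.Agent.Helper43.SPH
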