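import Pool.Agent.Helper43.SPH.Coh
import Pool.Agent.Helper80.FX2.Label

/-!
MP_3976d4_co: if all elements above the special element `s` are maximal, a monotone map without
fixed point gives a label function on the part below some `c < s` (in the form of helper80's FX2,
letters = finite chains).
-/

set_option autoImplicit false
set_option linter.unusedSectionVars false

universe u

namespace Pool.Agent.Helper43.SPH

section Sweeps

/-- the tuple `δ`, continued by `s` -/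
private def ext {Q : Type*} {n : ℕ} (s : Q) (δ : Fin n → Q) (j : ℕ) : Q :=
  if h : j < n then δ ⟨j, h⟩ else s

/-- the run `x_0 = st δ_0`, `x_(j+1) = K δ_(j+1) x_j` -/
private def run {Q P : Type*} {n : ℕ} (s : Q) (st : Q → P) (K : Q → P → P) (δ : Fin n → Q) : ℕ → P
  | 0 => st (ext s δ 0)
  | j + 1 => K (ext s δ (j + 1)) (run s st K δ j)

private theorem ext_of_lt {Q : Type*} {n : ℕ} (s : Q) (δ : Fin n → Q) {j : ℕ} (h : j < n) :
    ext s δ j = δ ⟨j, h⟩ := dif_pos h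

private theorem ext_mem {Q : Type*} {n : ℕ} {s : Q} {Z : Set Q} (hs : s ∈ Z) {δ : Fin n → Q}
    (hδ : ∀ j, δ j ∈ Z) (j : ℕ) : ext s δ j ∈ Z := by
  unfold ext
  split_ifs with h
  · exact hδ _
  · exact hs

private theorem ext_mono {Q : Type*} [PartialOrder Q] {n : ℕ} {s : Q} {Z : Set Q}
    (hZ : ∀ d ∈ Z, d ≤ s) {δ : Fin n → Q} (hδ : ∀ j, δ j ∈ Z) (hr : Helper31.FX.Rel δ δ) {j k : ℕ}
    (hjk : j < k) : ext s δ j ≤ ext s δ k := by
  unfold ext
  split_ifs with h h' h'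
  · exact hr.2 _ _ hjk
  · exact hZ _ (hδ _)
  · exact absurd (hjk.trans h') h
  · exact le_refl _

private theorem ext_le {Q : Type*} [PartialOrder Q] {n : ℕ} {s : Q} {δ δ' : Fin n → Q}
    (hr : Helper31.FX.Rel δ δ') (j : ℕ) : ext s δ j ≤ ext s δ' j := by
  unfold ext
  split_ifs with h
  · exact hr.1 _
  · exact le_refl _

private theorem ext_shift {Q : Type*} [PartialOrder Q] {n : ℕ} {s : Q} {Z : Set Q}
    (hZ : ∀ d ∈ Z, d ≤ s) {δ δ' : Fin n → Q} (hδ' : ∀ j, δ' j ∈ Z) (hr : Helper31.FX.Rel δ δ')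
    (j : ℕ) : ext s δ' j ≤ ext s δ (j + 1) := by
  unfold ext
  split_ifs with h h' h'
  · exact hr.2 _ _ (Nat.lt_succ_self j)
  · exact hZ _ (hδ' _)
  · omega
  · exact le_refl _

/-- Exits of interleaved runs (helper31, helper80), with the starting point kept. -/
theorem sweeps' {Q P : Type*} [PartialOrder Q] [PartialOrder P] (n : ℕ) (h0 : 0 < n)
    (hn : ∀ c : Finset P, IsChain (· ≤ ·) (c : Set P) → c.card ≤ n) (s : Q) (A : Set P)
    (Z : Set Q) (hs : s ∈ Z) (hZ : ∀ d ∈ Z, d ≤ s) (st : Q → P) (K : Q → P → P)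
    (hst : ∀ d ∈ Z, ∀ d' ∈ Z, d ≤ d' → st d ≤ st d')
    (hK : ∀ d ∈ Z, ∀ d' ∈ Z, ∀ x ∈ A, ∀ x' ∈ A, d ≤ d' → x ≤ x' → K d x ≤ K d' x')
    (hd : ∀ d ∈ Z, ∀ x ∈ A, st d ≤ K d x) (hx : ∀ d ∈ Z, ∀ x ∈ A, ¬ K d x ≤ x) :
    ∃ v : (Fin n → Q) → P,
      (∀ δ, Helper31.FX.Rel δ δ → (∀ j, δ j ∈ Z) → v δ ∉ A ∧
        (v δ = st (δ ⟨0, h0⟩) ∨ ∃ j, ∃ z ∈ A, z ≤ v δ ∧ v δ = K (δ j) z) ∧
        (st (δ ⟨0, h0⟩) ∉ A → v δ = st (δ ⟨0, h0⟩))) ∧
      ∀ δ δ', Helper31.FX.Rel δ δ' → Helper31.FX.Rel δ δ → Helper31.FX.Rel δ' δ' →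
        (∀ j, δ j ∈ Z) → (∀ j, δ' j ∈ Z) → v δ ≤ v δ' ∨ v δ' ≤ v δ := by
  classical
  -- the run ascends
  have asc : ∀ δ : Fin n → Q, Helper31.FX.Rel δ δ → (∀ j, δ j ∈ Z) → ∀ j,
      (∀ k ≤ j, run s st K δ k ∈ A) → run s st K δ j ≤ run s st K δ (j + 1) := by
    intro δ hr hδ j
    induction j with
    | zero =>
      intro h
      exact (hst _ (ext_mem hs hδ 0) _ (ext_mem hs hδ 1)
        (ext_mono hZ hδ hr Nat.zero_lt_one)).trans (hd _ (ext_mem hs hδ 1) _ (h 0 le_rfl))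
    | succ j ih =>
      intro h
      exact hK _ (ext_mem hs hδ (j + 1)) _ (ext_mem hs hδ (j + 2)) _ (h j (Nat.le_succ j)) _
        (h (j + 1) le_rfl) (ext_mono hZ hδ hr (Nat.lt_succ_self _))
        (ih fun k hk => h k (hk.trans (Nat.le_succ j)))
  have mono : ∀ δ : Fin n → Q, Helper31.FX.Rel δ δ → (∀ j, δ j ∈ Z) → ∀ j k, j ≤ k →
      (∀ i < k, run s st K δ i ∈ A) → run s st K δ j ≤ run s st K δ k := by
    intro δ hr hδ j k hjk
    induction k, hjk using Nat.le_induction with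
    | base => intro _; exact le_refl _
    | succ k _ ih =>
      intro h
      exact (ih fun i hi => h i (hi.trans (Nat.lt_succ_self k))).trans
        (asc δ hr hδ k fun i hi => h i (Nat.lt_succ_of_le hi))
  -- the run leaves `A`
  have exit : ∀ δ : Fin n → Q, Helper31.FX.Rel δ δ → (∀ j, δ j ∈ Z) →
      ∃ j < n, run s st K δ j ∉ A := by
    intro δ hr hδ
    by_contra hcon
    push Not at hcon
    have hlt : ∀ i k, i < k → k ≤ n → run s st K δ i < run s st K δ k := by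
      intro i k hik hk
      obtain ⟨k, rfl⟩ : ∃ k', k = k' + 1 := ⟨k - 1, by omega⟩
      have h1 : run s st K δ i ≤ run s st K δ k :=
        mono δ hr hδ i k (Nat.le_of_lt_succ hik) fun j hj => hcon j (by omega)
      have h2 : run s st K δ k ≤ run s st K δ (k + 1) :=
        asc δ hr hδ k fun j hj => hcon j (by omega)
      have h3 : ¬ run s st K δ (k + 1) ≤ run s st K δ k :=
        hx _ (ext_mem hs hδ (k + 1)) _ (hcon k (by omega))
      exact h1.trans_lt (lt_of_le_not_ge h2 h3)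
    have hinj : Set.InjOn (run s st K δ) (Finset.range (n + 1) : Set ℕ) := by
      intro i hi k hk he
      have hi' : i ≤ n := Nat.le_of_lt_succ (Finset.mem_range.1 (Finset.mem_coe.1 hi))
      have hk' : k ≤ n := Nat.le_of_lt_succ (Finset.mem_range.1 (Finset.mem_coe.1 hk))
      rcases lt_trichotomy i k with h | h | h
      · exact absurd he (hlt i k h hk').ne
      · exact h
      · exact absurd he (hlt k i h hi').ne'
    have hcard := hn ((Finset.range (n + 1)).image (run s st K δ)) (by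
      intro a ha b hb _
      obtain ⟨i, hi, rfl⟩ := Finset.mem_image.1 (Finset.mem_coe.1 ha)
      obtain ⟨k, hk, rfl⟩ := Finset.mem_image.1 (Finset.mem_coe.1 hb)
      have hi' : i ≤ n := Nat.le_of_lt_succ (Finset.mem_range.1 hi)
      have hk' : k ≤ n := Nat.le_of_lt_succ (Finset.mem_range.1 hk)
      rcases le_total i k with h | h
      · exact Or.inl (mono δ hr hδ i k h fun j hj => hcon j (by omega))
      · exact Or.inr (mono δ hr hδ k i h fun j hj => hcon j (by omega)))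
    rw [Finset.card_image_of_injOn hinj, Finset.card_range] at hcard
    omega
  have key : ∀ δ : Fin n → Q, Helper31.FX.Rel δ δ → (∀ j, δ j ∈ Z) →
      ∃ i < n, sInf {j | run s st K δ j ∉ A} = i ∧ run s st K δ i ∉ A ∧
        ∀ j < i, run s st K δ j ∈ A := by
    intro δ hr hδ
    obtain ⟨j, hj, hjA⟩ := exit δ hr hδ
    have hne : {j | run s st K δ j ∉ A}.Nonempty := ⟨j, hjA⟩
    refine ⟨_, lt_of_le_of_lt (Nat.sInf_le hjA) hj, rfl, Nat.sInf_mem hne, fun k hk => ?_⟩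
    by_contra h
    exact Nat.notMem_of_lt_sInf hk h
  refine ⟨fun δ => run s st K δ (sInf {j | run s st K δ j ∉ A}), ?_, ?_⟩
  · intro δ hr hδ
    obtain ⟨i, hin, hi, hiA, hlt⟩ := key δ hr hδ
    simp only [hi]
    have hrun0 : run s st K δ 0 = st (δ ⟨0, h0⟩) := by
      change st (ext s δ 0) = _
      rw [ext_of_lt s δ h0]
    refine ⟨hiA, ?_, ?_⟩
    · rcases i with _ | i
      · left
        exact hrun0
      · right
        refine ⟨⟨i + 1, hin⟩, run s st K δ i, hlt i (Nat.lt_succ_self i), ?_, ?_⟩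
        · exact asc δ hr hδ i fun k hk => hlt k (Nat.lt_succ_of_le hk)
        · change K (ext s δ (i + 1)) _ = _
          rw [ext_of_lt s δ hin]
    · intro h1
      rcases Nat.eq_zero_or_pos i with h2 | h2
      · rw [h2]
        exact hrun0
      · exact absurd (hrun0 ▸ hlt 0 h2) h1
  · intro δ δ' hrr hr hr' hδ hδ'
    obtain ⟨i, hin, hi, hiA, hlt⟩ := key δ hr hδ
    obtain ⟨i', hin', hi', hiA', hlt'⟩ := key δ' hr' hδ'
    simp only [hi, hi']
    -- `x_j ≤ x'_j` while both runs are in `A`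
    have c1 : ∀ j, (∀ k < j, run s st K δ k ∈ A) → (∀ k < j, run s st K δ' k ∈ A) →
        run s st K δ j ≤ run s st K δ' j := by
      intro j
      induction j with
      | zero => intro _ _; exact hst _ (ext_mem hs hδ 0) _ (ext_mem hs hδ' 0) (ext_le hrr 0)
      | succ j ih =>
        intro h h'
        exact hK _ (ext_mem hs hδ _) _ (ext_mem hs hδ' _) _ (h j (Nat.lt_succ_self j)) _
          (h' j (Nat.lt_succ_self j)) (ext_le hrr _)
          (ih (fun k hk => h k (hk.trans (Nat.lt_succ_self j)))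
            (fun k hk => h' k (hk.trans (Nat.lt_succ_self j))))
    -- `x'_j ≤ x_(j+1)`
    have c2 : ∀ j, (∀ k ≤ j, run s st K δ k ∈ A) → (∀ k < j, run s st K δ' k ∈ A) →
        run s st K δ' j ≤ run s st K δ (j + 1) := by
      intro j
      induction j with
      | zero =>
        intro h _
        exact (hst _ (ext_mem hs hδ' 0) _ (ext_mem hs hδ 1) (ext_shift hZ hδ' hrr 0)).trans
          (hd _ (ext_mem hs hδ 1) _ (h 0 le_rfl))
      | succ j ih =>
        intro h h'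
        exact hK _ (ext_mem hs hδ' _) _ (ext_mem hs hδ _) _ (h' j (Nat.lt_succ_self j)) _
          (h (j + 1) le_rfl) (ext_shift hZ hδ' hrr _)
          (ih (fun k hk => h k (hk.trans (Nat.le_succ j)))
            (fun k hk => h' k (hk.trans (Nat.lt_succ_self j))))
    rcases le_or_gt i i' with h | h
    · left
      exact (c1 i hlt fun k hk => hlt' k (lt_of_lt_of_le hk h)).trans
        (mono δ' hr' hδ' i i' h hlt')
    · right
      exact (c2 i' (fun k hk => hlt k (lt_of_le_of_lt hk h)) hlt').trans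
        (mono δ hr hδ (i' + 1) i h hlt)

end Sweeps

variable {P : Type u} [PartialOrder P]

/-- The data of a monotone map without fixed point if all elements above `s` are maximal. -/
lemma coh_pre (hn : ∃ n : ℕ, ∀ c : Finset P, IsChain (· ≤ ·) (c : Set P) → c.card ≤ n) (s : P)
    (h1 : ∀ x : P, (∃ z : P, IsLUB ({s, x} : Set P) z) ∨ (∃ z : P, IsGLB ({s, x} : Set P) z))
    (h2 : ∀ x y : P, x < y → (¬ ∃ z : P, IsGLB ({s, x} : Set P) z) →
      ∀ m : P, IsGLB ({s, y} : Set P) m → ∃ z : P, IsLUB ({m, x} : Set P) z)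
    (h4 : ∀ u v : P, s < u → ¬ u < v)
    (f : P → P) (hf : Monotone f) (hno : ¬ ∃ x : P, f x = x) :
    ∃ (A : P → Prop) (gl : P → P) (u0 : P) (Q : P → Prop),
      (∀ x, ¬ x ≤ f x) ∧ (∀ x, ¬ f x ≤ x) ∧
      (∀ z, ¬ A z → gl z ≤ s ∧ gl z ≤ z ∧ ∀ u, u ≤ s → u ≤ z → u ≤ gl z) ∧
      (∀ x y, A (f x) → f x ≤ f y → ¬ A (f y) →
        ∃ j, gl (f y) ≤ j ∧ f x ≤ j ∧ ∀ u, gl (f y) ≤ u → f x ≤ u → j ≤ u) ∧
      s < u0 ∧ ¬ A (f u0) ∧ ¬ s ≤ f u0 ∧
      (∀ x, gl (f u0) ≤ x → x ≤ u0 → Q x) ∧ (∀ x, Q x → ¬ A (f x) → Q (gl (f x))) ∧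
      (∀ x, Q x → A (f x) → f x ≤ u0) ∧
      (∀ x y, A (f x) → f x ≤ u0 → x ≤ y → A (f y) → f y ≤ u0) := by
  classical
  have hfix : ∀ x, f x ≠ x := fun x hx => hno ⟨x, hx⟩
  obtain ⟨n, hn⟩ := hn
  have hle : ∀ x, hgt x ≤ n := hgt_le hn
  have hlt : ∀ x y : P, x < y → hgt x < hgt y := hgt_lt hn
  have nle : ∀ x, ¬ x ≤ f x := by
    have key : ∀ k : ℕ, ∀ x, n - hgt x ≤ k → ¬ x ≤ f x := by
      intro k
      induction k with
      | zero =>
        intro x hk hx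
        have h4 : x < f x := lt_of_le_of_ne hx (fun e => hfix x e.symm)
        have h5 := hlt _ _ h4
        have h6 := hle (f x)
        omega
      | succ k ih =>
        intro x hk hx
        have h4 : x < f x := lt_of_le_of_ne hx (fun e => hfix x e.symm)
        have h5 := hlt _ _ h4
        have h6 := hle (f x)
        exact ih (f x) (by omega) (hf hx)
    exact fun x => key _ x le_rfl
  have nge : ∀ x, ¬ f x ≤ x := by
    have key : ∀ k : ℕ, ∀ x, hgt x ≤ k → ¬ f x ≤ x := by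
      intro k
      induction k with
      | zero =>
        intro x hk hx
        have h4 : f x < x := lt_of_le_of_ne hx (hfix x)
        have h5 := hlt _ _ h4
        omega
      | succ k ih =>
        intro x hk hx
        have h4 : f x < x := lt_of_le_of_ne hx (hfix x)
        have h5 := hlt _ _ h4
        exact ih (f x) (by omega) (hf hx)
    exact fun x => key _ x le_rfl
  let A : P → Prop := fun z => ¬ ∃ m : P, IsGLB ({s, z} : Set P) m
  let js : P → P := fun z => if h : ∃ j : P, IsLUB ({s, z} : Set P) j then h.choose else s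
  let gl : P → P := fun z => if h : ∃ j : P, IsGLB ({s, z} : Set P) j then h.choose else s
  have js_spec : ∀ z, A z → s ≤ js z ∧ z ≤ js z ∧ ∀ u, s ≤ u → z ≤ u → js z ≤ u := by
    intro z hz
    have h : ∃ j : P, IsLUB ({s, z} : Set P) j := (h1 z).resolve_right hz
    have h' : IsLUB ({s, z} : Set P) (js z) := by
      simp only [js]
      rw [dif_pos h]
      exact h.choose_spec
    exact ⟨lub_left h', lub_right h', fun u h5 h6 => lub_le' h' h5 h6⟩
  have gl_glb : ∀ z, ¬ A z → IsGLB ({s, z} : Set P) (gl z) := by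
    intro z hz
    have h : ∃ j : P, IsGLB ({s, z} : Set P) j := not_not.1 hz
    simp only [gl]
    rw [dif_pos h]
    exact h.choose_spec
  have gl_spec : ∀ z, ¬ A z → gl z ≤ s ∧ gl z ≤ z ∧ ∀ u, u ≤ s → u ≤ z → u ≤ gl z := by
    intro z hz
    have h := gl_glb z hz
    exact ⟨glb_left h, glb_right h, fun u h5 h6 => le_glb' h h5 h6⟩
  have hAle : ∀ z, A z → ¬ z ≤ s := by
    intro z hz hzs
    refine hz ⟨z, ?_, ?_⟩
    · rintro x (rfl | rfl)
      · exact hzs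
      · exact le_rfl
    · intro x hx
      exact hx (Or.inr rfl)
  obtain ⟨u0, Q, hu, hAu, hsu, hQ1, hQ2, hQ3⟩ :=
    dual_part hle hlt hf nle nge js_spec gl_spec hAle h4
  have hsjs : ∀ z, A z → s < js z := by
    intro z hz
    refine lt_of_le_of_ne (js_spec _ hz).1 (fun e => hAle z hz ?_)
    have h5 := (js_spec _ hz).2.1
    rw [← e] at h5
    exact h5
  refine ⟨A, gl, u0, Q, nle, nge, gl_spec, ?_, hu, hAu, hsu, hQ1, hQ2, ?_, ?_⟩
  · intro x y hx hxy hy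
    have hne : f x ≠ f y := by
      intro e
      rw [e] at hx
      exact hy hx
    obtain ⟨j, hj⟩ := h2 (f x) (f y) (lt_of_le_of_ne hxy hne) hx _ (gl_glb _ hy)
    exact ⟨j, lub_left hj, lub_right hj, fun u h5 h6 => lub_le' hj h5 h6⟩
  · intro x hx hxA
    have h5 := (js_spec _ hxA).2.1
    rw [hQ3 x hx hxA] at h5
    exact h5
  · intro x y hx hxu hxy hy
    have h5 : js (f x) = u0 := by
      by_contra hne
      exact h4 _ _ (hsjs _ hx)
        (lt_of_le_of_ne ((js_spec _ hx).2.2 _ hu.le hxu) hne)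
    have h6 : js (f x) ≤ js (f y) :=
      (js_spec _ hx).2.2 _ (js_spec _ hy).1 ((hf hxy).trans (js_spec _ hy).2.1)
    have h7 : js (f x) = js (f y) := by
      by_contra hne
      exact h4 _ _ (hsjs _ hx) (lt_of_le_of_ne h6 hne)
    rw [← h5, h7]
    exact (js_spec _ hy).2.1

open Helper80.FX2 (Lt LZ LZ_top lo lo_of_chain lo_empty lo_le lo_anti)

/-- The label function below some `c < s`. -/
theorem exists_label_coh
    (hfin : ∃ n : ℕ, ∀ c : Finset P, IsChain (· ≤ ·) (c : Set P) → c.card ≤ n) (s : P)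
    (h1 : ∀ x : P, (∃ z : P, IsLUB ({s, x} : Set P) z) ∨ (∃ z : P, IsGLB ({s, x} : Set P) z))
    (h2 : ∀ x y : P, x < y → (¬ ∃ z : P, IsGLB ({s, x} : Set P) z) →
      ∀ m : P, IsGLB ({s, y} : Set P) m → ∃ z : P, IsLUB ({m, x} : Set P) z)
    (h4 : ∀ u v : P, s < u → ¬ u < v)
    (f : P → P) (hf : Monotone f) (hno : ¬ ∃ x : P, f x = x) :
    ∃ c : P, c < s ∧ ∃ (r : ℕ) (lam : (Fin r → Lt P) → P),
      (∀ δ, Helper31.FX.Rel δ δ → (∀ j, δ j ∈ LZ {d : P | d < c}) → lam δ ∈ {d : P | d < c}) ∧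
      (∀ δ δ', Helper31.FX.Rel δ δ' → Helper31.FX.Rel δ δ → Helper31.FX.Rel δ' δ' →
        (∀ j, δ j ∈ LZ {d : P | d < c}) → (∀ j, δ' j ∈ LZ {d : P | d < c}) →
        lam δ ≤ lam δ' ∨ lam δ' ≤ lam δ) ∧
      ∀ δ, Helper31.FX.Rel δ δ → (∀ j, δ j ∈ LZ {d : P | d < c}) →
        ∀ x, (∀ j, x ∈ (OrderDual.ofDual (δ j) : Finset P)) → lam δ ≠ x := by
  classical
  obtain ⟨A, gl, u0, Q, nle, nge, gl_spec, jd_ex, hu, hAu, hsu, hQ1, hQ2, hQ3, Gup⟩ :=
    coh_pre hfin s h1 h2 h4 f hf hno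
  obtain ⟨n, hn⟩ := hfin
  set c : P := gl (f u0) with hc
  have hcs : c < s := by
    refine lt_of_le_of_ne (gl_spec _ hAu).1 (fun e => hsu ?_)
    rw [← e]
    exact (gl_spec _ hAu).2.1
  have hcu : c ≤ u0 := hcs.le.trans hu.le
  have glm : ∀ x y, x ≤ y → ¬ A (f x) → ¬ A (f y) → gl (f x) ≤ gl (f y) := by
    intro x y hxy hx hy
    exact (gl_spec _ hy).2.2 _ (gl_spec _ hx).1 ((gl_spec _ hx).2.1.trans (hf hxy))
  set E : Set P := {d : P | d < c} with hE
  -- the descending sequence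
  let g : P → P := fun y => if A (f y) then y else gl (f y)
  let Zs : ℕ → P := fun k => Nat.rec c (fun _ y => g y) k
  have Z0 : Zs 0 = c := rfl
  have ZS : ∀ k, Zs (k + 1) = g (Zs k) := fun _ => rfl
  have ZA : ∀ k, A (f (Zs k)) → Zs (k + 1) = Zs k := by
    intro k hk
    rw [ZS]
    exact if_pos hk
  have ZW : ∀ k, ¬ A (f (Zs k)) → Zs (k + 1) = gl (f (Zs k)) := by
    intro k hk
    rw [ZS]
    exact if_neg hk
  have ZQ : ∀ k, Q (Zs k) := by
    intro k
    induction k with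
    | zero => exact hQ1 c le_rfl hcu
    | succ k ih =>
      by_cases hk : A (f (Zs k))
      · rw [ZA k hk]
        exact ih
      · rw [ZW k hk]
        exact hQ2 _ ih hk
  have Zle : ∀ k, Zs (k + 1) ≤ Zs k := by
    intro k
    induction k with
    | zero =>
      by_cases hk : A (f (Zs 0))
      · rw [ZA 0 hk]
      · rw [ZW 0 hk]
        exact glm c u0 hcu hk hAu
    | succ k ih =>
      by_cases hk : A (f (Zs (k + 1)))
      · rw [ZA (k + 1) hk]
      · have hk' : ¬ A (f (Zs k)) := by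
          intro h
          rw [ZA k h] at hk
          exact hk h
        rw [ZW (k + 1) hk]
        refine (glm _ _ ih hk hk').trans ?_
        rw [ZW k hk']
  have Zanti : ∀ i j, i ≤ j → Zs j ≤ Zs i := by
    intro i j hij
    induction j, hij using Nat.le_induction with
    | base => exact le_rfl
    | succ j _ ih => exact (Zle j).trans ih
  have Zend : ∃ k, A (f (Zs k)) := by
    by_contra hcon
    push Not at hcon
    have h5 : ∀ k, hgt (Zs k) + k ≤ hgt c := by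
      intro k
      induction k with
      | zero => exact le_rfl
      | succ k ih =>
        have h6 : Zs (k + 1) < Zs k := by
          refine lt_of_le_of_ne (Zle k) (fun e => nle (Zs k) ?_)
          have h7 := (gl_spec _ (hcon k)).2.1
          rw [← ZW k (hcon k), e] at h7
          exact h7
        have h7 := hgt_lt hn _ _ h6
        omega
    have h6 := h5 (hgt c + 1)
    omega
  -- an irrelevant point is not below all `Zs k`
  have Zirr : ∀ a y, A (f a) → ¬ f a ≤ u0 → a ≤ y → ∃ k, ¬ y ≤ Zs (k + 1) := by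
    intro a y ha hau hay
    by_contra hcon
    push Not at hcon
    obtain ⟨k, hk⟩ := Zend
    have h5 : a ≤ Zs k := (hay.trans (hcon k)).trans (Zle k)
    exact hau ((hf h5).trans (hQ3 _ (ZQ k) hk))
  let nz : P → P := fun y => if h : ∃ k, ¬ y ≤ Zs (k + 1) then Zs (Nat.find h + 1) else c
  have nz_spec : ∀ y, y ≤ c → (∃ k, ¬ y ≤ Zs (k + 1)) →
      ∃ k, nz y = Zs (k + 1) ∧ y ≤ Zs k ∧ ¬ y ≤ Zs (k + 1) := by
    intro y hy h
    refine ⟨Nat.find h, ?_, ?_, Nat.find_spec h⟩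
    · simp only [nz]
      rw [dif_pos h]
    · rcases hk : Nat.find h with _ | k
      · exact hy
      · have h5 := Nat.find_min h (m := k) (by omega)
        exact not_not.1 h5
  -- consequences of `nz_spec`
  have nz_lt : ∀ y, y ≤ c → (∃ k, ¬ y ≤ Zs (k + 1)) → nz y < c := by
    intro y hy h
    obtain ⟨k, h5, h6, h7⟩ := nz_spec y hy h
    rw [h5]
    refine lt_of_lt_of_le (lt_of_le_of_ne (Zle k) ?_) (Zanti 0 k (Nat.zero_le k))
    intro e
    rw [e] at h7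
    exact h7 h6
  have nz_not : ∀ y, y ≤ c → (∃ k, ¬ y ≤ Zs (k + 1)) → ¬ y ≤ nz y := by
    intro y hy h
    obtain ⟨k, h5, h6, h7⟩ := nz_spec y hy h
    rw [h5]
    exact h7
  have nz_ge : ∀ x y, y ≤ c → (∃ k, ¬ y ≤ Zs (k + 1)) → x ≤ y → ¬ A (f x) →
      gl (f x) ≤ nz y := by
    intro x y hy h hxy hx
    obtain ⟨k, h5, h6, h7⟩ := nz_spec y hy h
    have h8 : ¬ A (f (Zs k)) := by
      intro h9
      rw [ZA k h9] at h7
      exact h7 h6
    rw [h5, ZW k h8]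
    exact glm _ _ (hxy.trans h6) hx h8
  have nz_cmp : ∀ y y', y ≤ c → y' ≤ c → (∃ k, ¬ y ≤ Zs (k + 1)) → (∃ k, ¬ y' ≤ Zs (k + 1)) →
      nz y ≤ nz y' ∨ nz y' ≤ nz y := by
    intro y y' hy hy' h h'
    obtain ⟨k, h5, _, _⟩ := nz_spec y hy h
    obtain ⟨k', h5', _, _⟩ := nz_spec y' hy' h'
    rw [h5, h5']
    rcases le_total (k + 1) (k' + 1) with h6 | h6
    · exact Or.inr (Zanti _ _ h6)
    · exact Or.inl (Zanti _ _ h6)
  -- the runs
  let As : Set P := {x | x ≤ u0 ∧ A (f x) ∧ f x ≤ u0}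
  let Val : P → P → Prop := fun x e => ∃ w, ¬ A (f w) ∧ x ≤ w ∧ gl (f w) = e
  have hVal : ∀ x x', x ≤ x' → ∀ e, Val x' e → Val x e := by
    rintro x x' h e ⟨w, h5, h6, h7⟩
    exact ⟨w, h5, h.trans h6, h7⟩
  let ad : Lt P → P → P := fun ρ x => lo c ((OrderDual.ofDual ρ : Finset P).filter (Val x))
  let K : Lt P → P → P := fun ρ x =>
    if h : ∃ j, ad ρ x ≤ j ∧ f x ≤ j ∧ ∀ u, ad ρ x ≤ u → f x ≤ u → j ≤ u then h.choose else s
  have hle : ∀ ρ ∈ LZ E, ∀ x ∈ (OrderDual.ofDual ρ : Finset P), x ≤ c := fun ρ hρ x hx =>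
    le_of_lt (show x < c from hρ.1 (Finset.mem_coe.2 hx))
  have hch : ∀ ρ ∈ LZ E, ∀ x,
      IsChain (· ≤ ·) (((OrderDual.ofDual ρ : Finset P).filter (Val x) : Finset P) : Set P) :=
    fun ρ hρ x => hρ.2.mono (Finset.coe_subset.2 (Finset.filter_subset _ _))
  have hlef : ∀ ρ ∈ LZ E, ∀ x, ∀ y ∈ (OrderDual.ofDual ρ : Finset P).filter (Val x), y ≤ c :=
    fun ρ hρ x y hy => hle ρ hρ y (Finset.mem_of_mem_filter y hy)
  have hads : ∀ ρ ∈ LZ E, ∀ x, ad ρ x ≤ c := fun ρ hρ x => lo_le c _ (hch ρ hρ x) (hlef ρ hρ x)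
  have hstc : ∀ ρ ∈ LZ E, lo c (OrderDual.ofDual ρ) ≤ c := fun ρ hρ =>
    lo_le c _ hρ.2 (hle ρ hρ)
  have hlub : ∀ ρ ∈ LZ E, ∀ x ∈ As,
      ad ρ x ≤ K ρ x ∧ f x ≤ K ρ x ∧ ∀ u, ad ρ x ≤ u → f x ≤ u → K ρ x ≤ u := by
    intro ρ hρ x hx
    have h : ∃ j, ad ρ x ≤ j ∧ f x ≤ j ∧ ∀ u, ad ρ x ≤ u → f x ≤ u → j ≤ u := by
      rcases ((OrderDual.ofDual ρ : Finset P).filter (Val x)).eq_empty_or_nonempty with he | he
      · have e : ad ρ x = c := by
          simp only [ad, he]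
          exact lo_empty c
        rw [e]
        exact jd_ex x u0 hx.2.1 (hf hx.1) hAu
      · have h5 := (lo_of_chain c _ (hch ρ hρ x) he).1
        rw [Finset.mem_filter] at h5
        obtain ⟨-, w, hw, hxw, hwe⟩ := h5
        have h6 := jd_ex x w hx.2.1 (hf hxw) hw
        rw [hwe] at h6
        exact h6
    simp only [K, dif_pos h]
    exact h.choose_spec
  have hKu : ∀ ρ ∈ LZ E, ∀ x ∈ As, K ρ x ≤ u0 := fun ρ hρ x hx =>
    (hlub ρ hρ x hx).2.2 _ ((hads ρ hρ x).trans hcu) hx.2.2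
  have hKx : ∀ ρ ∈ LZ E, ∀ x ∈ As, ¬ K ρ x ≤ x := fun ρ hρ x hx h =>
    nge x ((hlub ρ hρ x hx).2.1.trans h)
  have hst : ∀ ρ ∈ LZ E, ∀ ρ' ∈ LZ E, ρ ≤ ρ' →
      lo c (OrderDual.ofDual ρ) ≤ lo c (OrderDual.ofDual ρ') := fun ρ hρ ρ' _ h =>
    lo_anti c _ _ hρ.2 (hle ρ hρ) h
  have hd : ∀ ρ ∈ LZ E, ∀ x ∈ As, lo c (OrderDual.ofDual ρ) ≤ K ρ x := fun ρ hρ x hx =>
    (lo_anti c _ _ hρ.2 (hle ρ hρ) (Finset.filter_subset _ _)).trans (hlub ρ hρ x hx).1
  have hK : ∀ ρ ∈ LZ E, ∀ ρ' ∈ LZ E, ∀ x ∈ As, ∀ x' ∈ As, ρ ≤ ρ' → x ≤ x' →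
      K ρ x ≤ K ρ' x' := by
    intro ρ hρ ρ' hρ' x hx x' hx' h hxx
    refine (hlub ρ hρ x hx).2.2 _ ((lo_anti c _ _ (hch ρ hρ x) (hlef ρ hρ x) ?_).trans
      (hlub ρ' hρ' x' hx').1) ((hf hxx).trans (hlub ρ' hρ' x' hx').2.1)
    intro y hy
    rw [Finset.mem_filter] at hy ⊢
    exact ⟨h hy.1, hVal x x' hxx y hy.2⟩
  have htop : ∀ ρ ∈ LZ E, ρ ≤ (OrderDual.toDual (∅ : Finset P) : Lt P) := by
    intro ρ _
    show (∅ : Finset P) ⊆ OrderDual.ofDual ρ
    exact Finset.empty_subset _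
  obtain ⟨v, hv1, hv2⟩ := sweeps' (n + 2) (by omega)
    (fun c hc => (hn c hc).trans (by omega)) (OrderDual.toDual (∅ : Finset P) : Lt P) As (LZ E)
    (LZ_top E) htop (fun ρ => lo c (OrderDual.ofDual ρ)) K hst hK hd hKx
  -- facts on the exits
  let z0 : Fin (n + 2) := ⟨0, by omega⟩
  let zl : Fin (n + 2) := ⟨n + 1, by omega⟩
  have hz0l : z0 < zl := by
    show (0 : ℕ) < n + 1
    omega
  have hvu : ∀ δ, Helper31.FX.Rel δ δ → (∀ j, δ j ∈ LZ E) → v δ ≤ u0 := by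
    intro δ hδ hδZ
    obtain ⟨_, h5, _⟩ := hv1 δ hδ hδZ
    rcases h5 with e | ⟨j, z, hz, _, e⟩
    · rw [e]
      exact (hstc _ (hδZ _)).trans hcu
    · rw [e]
      exact hKu _ (hδZ j) z hz
  -- irrelevant exits are starting points
  have hirr : ∀ δ, Helper31.FX.Rel δ δ → (∀ j, δ j ∈ LZ E) → A (f (v δ)) →
      v δ = lo c (OrderDual.ofDual (δ z0)) ∧ ¬ f (v δ) ≤ u0 := by
    intro δ hδ hδZ hA
    obtain ⟨h5, h6, _⟩ := hv1 δ hδ hδZ
    have h7 : ¬ f (v δ) ≤ u0 := fun h => h5 ⟨hvu δ hδ hδZ, hA, h⟩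
    refine ⟨?_, h7⟩
    rcases h6 with e | ⟨j, z, hz, hzv, e⟩
    · exact e
    · exact absurd (Gup z (v δ) hz.2.1 hz.2.2 hzv hA) h7
  have hend : ∀ δ, Helper31.FX.Rel δ δ → (∀ j, δ j ∈ LZ E) →
      lo c (OrderDual.ofDual (δ z0)) ≤ lo c (OrderDual.ofDual (δ zl)) := fun δ hδ hδZ =>
    hst _ (hδZ _) _ (hδZ _) (hδ.2 z0 zl hz0l)
  have hzirr : ∀ δ, Helper31.FX.Rel δ δ → (∀ j, δ j ∈ LZ E) → A (f (v δ)) →
      ∃ k, ¬ lo c (OrderDual.ofDual (δ zl)) ≤ Zs (k + 1) := by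
    intro δ hδ hδZ hA
    obtain ⟨h5, h6⟩ := hirr δ hδ hδZ hA
    exact Zirr (v δ) _ hA h6 (h5 ▸ hend δ hδ hδZ)
  have hlt : ∀ δ, Helper31.FX.Rel δ δ → (∀ j, δ j ∈ LZ E) → ¬ A (f (v δ)) →
      gl (f (v δ)) < c := by
    intro δ hδ hδZ hA
    refine lt_of_le_of_ne (glm _ _ (hvu δ hδ hδZ) hA hAu) (fun e => nle (v δ) ?_)
    have h5 : c ≤ f (v δ) := by
      have h6 := (gl_spec _ hA).2.1
      rw [e] at h6
      exact h6
    obtain ⟨_, h6, _⟩ := hv1 δ hδ hδZ
    rcases h6 with e1 | ⟨j, z, hz, hzv, e1⟩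
    · have h7 : v δ ≤ c := by
        rw [e1]
        exact hstc _ (hδZ _)
      exact h7.trans h5
    · have h7 : K (δ j) z ≤ f (v δ) :=
        (hlub _ (hδZ j) z hz).2.2 _ ((hads _ (hδZ j) z).trans h5) (hf hzv)
      rw [← e1] at h7
      exact h7
  let lam : (Fin (n + 2) → Lt P) → P := fun δ =>
    if A (f (v δ)) then nz (lo c (OrderDual.ofDual (δ zl))) else gl (f (v δ))
  have lamA : ∀ δ, A (f (v δ)) → lam δ = nz (lo c (OrderDual.ofDual (δ zl))) := fun δ h => if_pos h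
  have lamW : ∀ δ, ¬ A (f (v δ)) → lam δ = gl (f (v δ)) := fun δ h => if_neg h
  refine ⟨c, hcs, n + 2, lam, ?_, ?_, ?_⟩
  · intro δ hδ hδZ
    by_cases hA : A (f (v δ))
    · rw [lamA δ hA]
      exact nz_lt _ (hstc _ (hδZ _)) (hzirr δ hδ hδZ hA)
    · rw [lamW δ hA]
      exact hlt δ hδ hδZ hA
  · intro δ δ' hr h5 h5' hz hz'
    by_cases hA : A (f (v δ)) <;> by_cases hA' : A (f (v δ'))
    · rw [lamA δ hA, lamA δ' hA']
      exact nz_cmp _ _ (hstc _ (hz _)) (hstc _ (hz' _)) (hzirr δ h5 hz hA)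
        (hzirr δ' h5' hz' hA')
    · right
      rw [lamA δ hA, lamW δ' hA']
      obtain ⟨e, h6⟩ := hirr δ h5 hz hA
      -- the run of `δ'` stops at its starting point
      have h7 : lo c (OrderDual.ofDual (δ z0)) ≤ lo c (OrderDual.ofDual (δ' z0)) :=
        hst _ (hz _) _ (hz' _) (hr.1 z0)
      have h8 : v δ' = lo c (OrderDual.ofDual (δ' z0)) := by
        refine (hv1 δ' h5' hz').2.2 (fun h => h6 ?_)
        rw [e]
        exact (hf h7).trans h.2.2
      refine nz_ge _ _ (hstc _ (hz _)) (hzirr δ h5 hz hA) ?_ hA'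
      rw [h8]
      exact hst _ (hz' _) _ (hz _) (hr.2 z0 zl hz0l)
    · left
      rw [lamW δ hA, lamA δ' hA']
      obtain ⟨e, h6⟩ := hirr δ' h5' hz' hA'
      have h7 : lo c (OrderDual.ofDual (δ z0)) ≤ lo c (OrderDual.ofDual (δ' z0)) :=
        hst _ (hz _) _ (hz' _) (hr.1 z0)
      have h8 : v δ = lo c (OrderDual.ofDual (δ z0)) := by
        refine (hv1 δ h5 hz).2.2 (fun h => h6 ?_)
        refine Gup _ _ h.2.1 h.2.2 ?_ hA'
        rw [e]
        exact h7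
      refine nz_ge _ _ (hstc _ (hz' _)) (hzirr δ' h5' hz' hA') ?_ hA
      rw [h8]
      exact h7.trans (hend δ' h5' hz')
    · rw [lamW δ hA, lamW δ' hA']
      rcases hv2 δ δ' hr h5 h5' hz hz' with h | h
      · exact Or.inl (glm _ _ h hA hA')
      · exact Or.inr (glm _ _ h hA' hA)
  · intro δ hδ hδZ x hx hcon
    by_cases hA : A (f (v δ))
    · rw [lamA δ hA] at hcon
      have h5 : lo c (OrderDual.ofDual (δ zl)) ≤ x :=
        (lo_of_chain c _ (hδZ zl).2 ⟨x, hx zl⟩).2 _ (hx zl)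
      rw [← hcon] at h5
      exact nz_not _ (hstc _ (hδZ _)) (hzirr δ hδ hδZ hA) h5
    · rw [lamW δ hA] at hcon
      have hlb : x ≤ f (v δ) := hcon ▸ (gl_spec _ hA).2.1
      obtain ⟨_, h6, _⟩ := hv1 δ hδ hδZ
      apply nle (v δ)
      rcases h6 with e1 | ⟨j, z, hz, hzv, e1⟩
      · have h7 : v δ ≤ x := by
          rw [e1]
          exact (lo_of_chain c _ (hδZ _).2 ⟨x, hx _⟩).2 _ (hx _)
        exact h7.trans hlb
      · have hmem : x ∈ (OrderDual.ofDual (δ j) : Finset P).filter (Val z) := by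
          rw [Finset.mem_filter]
          exact ⟨hx j, v δ, hA, hzv, hcon⟩
        have h7 : ad (δ j) z ≤ x := (lo_of_chain c _ (hch _ (hδZ j) z) ⟨_, hmem⟩).2 _ hmem
        have h8 : K (δ j) z ≤ f (v δ) :=
          (hlub _ (hδZ j) z hz).2.2 _ (h7.trans hlb) (hf hzv)
        rw [← e1] at h8
        exact h8

end Pool.Agent.Helper43.SPH
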