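import Pool.Agent.Helper43.SPH.CohLabel
import Pool.Agent.Helper9.FX.Cover2

/-!
MP_3976d4_co: the common upper bounds of `s` and `f x` have a greatest element for all `x` of a set
`A`, and `be w` is a monotone choice of common lower bounds of `s` and `f w` off `A`. Then a
monotone map `f` without fixed point gives a label function on the values of `be` below some value
`c < s` of `be`.
-/

set_option autoImplicit false
set_option linter.unusedSectionVars false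

universe u

namespace Pool.Agent.Helper43.SPH

variable {P : Type u} [PartialOrder P]

open Helper80.FX2 (Lt LZ LZ_top lo lo_of_chain lo_empty lo_le lo_anti)
open Helper31.FX (CoverTame)

section Runs

variable {s : P} {f be : P → P} {A : Set P}

open Classical in
/-- one step of the descending run -/
noncomputable def stepR (A : Set P) (be : P → P) (x : P) : P := if x ∈ A then x else be x

/-- the run goes down from `x` -/
def GoodR (A : Set P) (be : P → P) (x : P) : Prop := x ∉ A → be x ≤ x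

lemma stepR_mem {x : P} (h : x ∈ A) : stepR A be x = x := if_pos h

lemma stepR_not {x : P} (h : x ∉ A) : stepR A be x = be x := if_neg h

lemma iter_mem {x : P} (h : x ∈ A) (k : ℕ) : (stepR A be)^[k] x = x :=
  Function.iterate_fixed (stepR_mem h) k

lemma good_be (hm : ∀ v w, v ∉ A → w ∉ A → v ≤ w → be v ≤ be w) {x : P} (hg : GoodR A be x)
    (hx : x ∉ A) : GoodR A be (be x) := fun h => hm _ _ h hx (hg hx)

/-- a good run ends in `A`, below its starting point -/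
lemma run_end (hlt : ∀ x y : P, x < y → hgt x < hgt y)
    (hbe : ∀ w, w ∉ A → be w ≤ f w) (hm : ∀ v w, v ∉ A → w ∉ A → v ≤ w → be v ≤ be w)
    (nle : ∀ x, ¬ x ≤ f x) :
    ∀ k x, GoodR A be x → hgt x < k → (stepR A be)^[k] x ∈ A ∧ (stepR A be)^[k] x ≤ x := by
  intro k
  induction k with
  | zero => intro x _ h; exact absurd h (Nat.not_lt_zero _)
  | succ k ih =>
    intro x hg hk
    by_cases hx : x ∈ A
    · rw [iter_mem hx]
      exact ⟨hx, le_rfl⟩
    · rw [Function.iterate_succ_apply, stepR_not hx]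
      have h1 : be x < x := by
        refine lt_of_le_of_ne (hg hx) (fun e => nle x ?_)
        have h2 := hbe x hx
        rwa [e] at h2
      have h3 := hlt _ _ h1
      obtain ⟨h4, h5⟩ := ih (be x) (good_be hm hg hx) (by omega)
      exact ⟨h4, h5.trans h1.le⟩

end Runs

/-- The maximal element `u0` and the set `Q`. -/
lemma coh_pre_sel (hn : ∃ n : ℕ, ∀ c : Finset P, IsChain (· ≤ ·) (c : Set P) → c.card ≤ n) (s : P)
    (f : P → P) (hf : Monotone f) (hno : ¬ ∃ x : P, f x = x)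
    (A : Set P) (hA : ∀ x ∈ A, ∃ z : P, IsGreatest {v : P | s ≤ v ∧ f x ≤ v} z)
    (be : P → P) (hbe : ∀ w, w ∉ A → be w ≤ s ∧ be w ≤ f w)
    (hm : ∀ v w, v ∉ A → w ∉ A → v ≤ w → be v ≤ be w) :
    ∃ (u0 : P) (Q : P → Prop),
      (∀ x, ¬ x ≤ f x) ∧ (∀ x, ¬ f x ≤ x) ∧
      s ≤ u0 ∧ (∀ v, u0 ≤ v → v = u0) ∧ u0 ∉ A ∧ ¬ s ≤ f u0 ∧
      (∀ x, be u0 ≤ x → x ≤ u0 → Q x) ∧ (∀ x, Q x → x ∉ A → Q (be x)) ∧
      (∀ x, Q x → x ∈ A → f x ≤ u0) ∧
      (∀ x y, x ∈ A → f x ≤ u0 → x ≤ y → y ∈ A → f y ≤ u0) := by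
  classical
  have hfix : ∀ x, f x ≠ x := fun x hx => hno ⟨x, hx⟩
  obtain ⟨n, hn⟩ := hn
  have hle : ∀ x, hgt x ≤ n := hgt_le hn
  have hlt : ∀ x y : P, x < y → hgt x < hgt y := hgt_lt hn
  have nle : ∀ x, ¬ x ≤ f x := by
    have key : ∀ k : ℕ, ∀ x, n - hgt x ≤ k → ¬ x ≤ f x := by
      intro k
      induction k with
      | zero =>
        intro x hk hx
        have h4 : x < f x := lt_of_le_of_ne hx (fun e => hfix x e.symm)
        have h5 := hlt _ _ h4
        have h6 := hle (f x)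
        omega
      | succ k ih =>
        intro x hk hx
        have h4 : x < f x := lt_of_le_of_ne hx (fun e => hfix x e.symm)
        have h5 := hlt _ _ h4
        have h6 := hle (f x)
        exact ih (f x) (by omega) (hf hx)
    exact fun x => key _ x le_rfl
  have nge : ∀ x, ¬ f x ≤ x := by
    have key : ∀ k : ℕ, ∀ x, hgt x ≤ k → ¬ f x ≤ x := by
      intro k
      induction k with
      | zero =>
        intro x hk hx
        have h4 : f x < x := lt_of_le_of_ne hx (hfix x)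
        have h5 := hlt _ _ h4
        omega
      | succ k ih =>
        intro x hk hx
        have h4 : f x < x := lt_of_le_of_ne hx (hfix x)
        have h5 := hlt _ _ h4
        exact ih (f x) (by omega) (hf hx)
    exact fun x => key _ x le_rfl
  let al : P → P := fun x =>
    if h : ∃ z : P, IsGreatest {v : P | s ≤ v ∧ f x ≤ v} z then h.choose else s
  have al_spec : ∀ x ∈ A, s ≤ al x ∧ f x ≤ al x ∧ ∀ v, s ≤ v → f x ≤ v → v ≤ al x := by
    intro x hx
    have h := hA x hx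
    have h' : IsGreatest {v : P | s ≤ v ∧ f x ≤ v} (al x) := by
      simp only [al]
      rw [dif_pos h]
      exact h.choose_spec
    exact ⟨h'.1.1, h'.1.2, fun v h5 h6 => h'.2 ⟨h5, h6⟩⟩
  have al_max : ∀ x ∈ A, ∀ v, al x ≤ v → v = al x := fun x hx v hv =>
    le_antisymm ((al_spec x hx).2.2 v ((al_spec x hx).1.trans hv) ((al_spec x hx).2.1.trans hv)) hv
  have al_eq : ∀ x ∈ A, ∀ y ∈ A, x ≤ y → al x = al y := fun x hx y hy h =>
    al_max y hy _ ((al_spec x hx).2.2 _ (al_spec y hy).1 ((hf h).trans (al_spec y hy).2.1))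
  have hbe2 : ∀ w, w ∉ A → be w ≤ f w := fun w hw => (hbe w hw).2
  let ex : P → P := fun x => (stepR A be)^[n + 1] x
  have ex_spec : ∀ x, GoodR A be x → ex x ∈ A ∧ ex x ≤ x := fun x hx =>
    run_end hlt hbe2 hm nle (n + 1) x hx (Nat.lt_succ_of_le (hle x))
  have ex_mem : ∀ x ∈ A, ex x = x := fun x hx => iter_mem hx _
  have ex_be : ∀ x, x ∉ A → GoodR A be x → ex (be x) = ex x := by
    intro x hx hg
    have h5 : ex (be x) = stepR A be (ex x) := by
      show (stepR A be)^[n + 1] (be x) = stepR A be ((stepR A be)^[n + 1] x)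
      rw [← stepR_not (be := be) hx, ← Function.iterate_succ_apply, Function.iterate_succ_apply']
    rw [h5, stepR_mem (ex_spec x hg).1]
  have D_eq : ∀ m x y, hgt x + hgt y ≤ m → GoodR A be x → GoodR A be y → x ≤ y →
      (y ∉ A → be y ≤ x) → al (ex x) = al (ex y) := by
    intro m
    induction m with
    | zero =>
      intro x y h hx hy hxy hyx
      by_cases hyA : y ∈ A
      · rw [ex_mem y hyA]
        exact al_eq _ (ex_spec x hx).1 _ hyA ((ex_spec x hx).2.trans hxy)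
      · have h5 : be y < y := by
          refine lt_of_le_of_ne (hy hyA) (fun e => nle y ?_)
          have h6 := hbe2 y hyA
          rwa [e] at h6
        have h6 := hlt _ _ h5
        omega
    | succ m ih =>
      intro x y h hx hy hxy hyx
      by_cases hyA : y ∈ A
      · rw [ex_mem y hyA]
        exact al_eq _ (ex_spec x hx).1 _ hyA ((ex_spec x hx).2.trans hxy)
      · have h5 : be y < y := by
          refine lt_of_le_of_ne (hy hyA) (fun e => nle y ?_)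
          have h6 := hbe2 y hyA
          rwa [e] at h6
        have h6 := hlt _ _ h5
        rw [← ex_be y hyA hy]
        by_cases hxA : x ∈ A
        · rw [ex_mem x hxA]
          have h7 := ex_spec (be y) (good_be hm hy hyA)
          exact (al_eq _ h7.1 _ hxA (h7.2.trans (hyx hyA))).symm
        · exact (ih (be y) x (by omega) (good_be hm hy hyA) hx (hyx hyA)
            (fun _ => hm _ _ hxA hyA hxy)).symm
  have hgs : GoodR A be s := fun h => (hbe s h).1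
  obtain ⟨hy0, hy0s⟩ := ex_spec s hgs
  set u0 : P := al (ex s) with hu0
  have hsu0 : s ≤ u0 := (al_spec _ hy0).1
  have hgu : GoodR A be u0 := fun h => (hbe u0 h).1.trans hsu0
  have hDu : al (ex u0) = u0 := (D_eq _ s u0 le_rfl hgs hgu hsu0 (fun h => (hbe u0 h).1)).symm
  have hAu : u0 ∉ A := by
    intro h
    rw [ex_mem u0 h] at hDu
    have h5 := (al_spec u0 h).2.1
    rw [hDu] at h5
    exact nge u0 h5
  have hsu : ¬ s ≤ f u0 := fun h =>
    nge u0 ((al_spec _ hy0).2.2 _ h (hf (hy0s.trans hsu0)))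
  refine ⟨u0, fun x => GoodR A be x ∧ al (ex x) = u0, nle, nge, hsu0, al_max _ hy0, hAu, hsu,
    ?_, ?_, ?_, ?_⟩
  · intro x hx1 hx2
    have hgx : GoodR A be x := fun h => (hm _ _ h hAu hx2).trans hx1
    exact ⟨hgx, (D_eq _ x u0 le_rfl hgx hgu hx2 (fun _ => hx1)).trans hDu⟩
  · intro x hx hxA
    exact ⟨good_be hm hx.1 hxA, by rw [ex_be x hxA hx.1]; exact hx.2⟩
  · intro x hx hxA
    have h5 := (al_spec x hxA).2.1
    rw [← ex_mem x hxA, hx.2, ex_mem x hxA] at h5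
    exact h5
  · intro x y hxA hxu hxy hyA
    have h5 : al x = u0 := al_max _ hy0 _ ((al_spec x hxA).2.2 _ hsu0 hxu)
    have h6 := (al_spec y hyA).2.1
    rw [← al_eq x hxA y hyA hxy, h5] at h6
    exact h6

/-- the values of `be` below `be u0` at points `w <= u0` off `A` -/
def Evals (A : Set P) (be : P → P) (u0 : P) : Set P :=
  {d : P | d < be u0 ∧ ∃ w, w ∉ A ∧ w ≤ u0 ∧ be w = d}

/-- The label function on the values of `be` below `be u0`. -/
theorem exists_label_sel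
    (hfin : ∃ n : ℕ, ∀ c : Finset P, IsChain (· ≤ ·) (c : Set P) → c.card ≤ n) (s : P)
    (f : P → P) (hf : Monotone f) (hno : ¬ ∃ x : P, f x = x)
    (A : Set P) (hA : ∀ x ∈ A, ∃ z : P, IsGreatest {v : P | s ≤ v ∧ f x ≤ v} z)
    (be : P → P) (hbe : ∀ w, w ∉ A → be w ≤ s ∧ be w ≤ f w)
    (hm : ∀ v w, v ∉ A → w ∉ A → v ≤ w → be v ≤ be w)
    (hj : ∀ x w, x < w → x ∈ A → w ∉ A → be w < s → ∃ z : P, IsLUB ({be w, f x} : Set P) z) :
    ∃ u0 : P, s ≤ u0 ∧ (∀ v, u0 ≤ v → v = u0) ∧ u0 ∉ A ∧ be u0 < s ∧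
      ∃ (r : ℕ) (lam : (Fin r → Lt P) → P),
      (∀ δ, Helper31.FX.Rel δ δ → (∀ j, δ j ∈ LZ (Evals A be u0)) → lam δ ∈ Evals A be u0) ∧
      (∀ δ δ', Helper31.FX.Rel δ δ' → Helper31.FX.Rel δ δ → Helper31.FX.Rel δ' δ' →
        (∀ j, δ j ∈ LZ (Evals A be u0)) → (∀ j, δ' j ∈ LZ (Evals A be u0)) →
        lam δ ≤ lam δ' ∨ lam δ' ≤ lam δ) ∧
      ∀ δ, Helper31.FX.Rel δ δ → (∀ j, δ j ∈ LZ (Evals A be u0)) →
        ∀ x, (∀ j, x ∈ (OrderDual.ofDual (δ j) : Finset P)) → lam δ ≠ x := by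
  classical
  obtain ⟨u0, Q, nle, nge, hu, hmax, hAu, hsu, hQ1, hQ2, hQ3, Gup⟩ :=
    coh_pre_sel hfin s f hf hno A hA be hbe hm
  have jd_ex : ∀ x w, x ≤ w → x ∈ A → w ∉ A → be w < s →
      ∃ j, be w ≤ j ∧ f x ≤ j ∧ ∀ u, be w ≤ u → f x ≤ u → j ≤ u := by
    intro x w hxw hx hw hws
    have hne : x ≠ w := by
      rintro rfl
      exact hw hx
    obtain ⟨j, hj'⟩ := hj x w (lt_of_le_of_ne hxw hne) hx hw hws
    exact ⟨j, lub_left hj', lub_right hj', fun u h5 h6 => lub_le' hj' h5 h6⟩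
  obtain ⟨n, hn⟩ := hfin
  set c : P := be u0 with hc
  have hcs : c < s := by
    refine lt_of_le_of_ne (hbe _ hAu).1 (fun e => hsu ?_)
    rw [← e]
    exact (hbe _ hAu).2
  have hcu : c ≤ u0 := hcs.le.trans hu
  have glm : ∀ x y, x ≤ y → x ∉ A → y ∉ A → be x ≤ be y := fun x y hxy hx hy => hm x y hx hy hxy
  set E : Set P := Evals A be u0 with hE
  have hEc : ∀ d ∈ E, d < c := fun d hd => hd.1
  -- the descending sequence
  let g : P → P := fun y => if y ∈ A then y else be y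
  let Zs : ℕ → P := fun k => Nat.rec c (fun _ y => g y) k
  have Z0 : Zs 0 = c := rfl
  have ZS : ∀ k, Zs (k + 1) = g (Zs k) := fun _ => rfl
  have ZA : ∀ k, Zs k ∈ A → Zs (k + 1) = Zs k := by
    intro k hk
    rw [ZS]
    exact if_pos hk
  have ZW : ∀ k, Zs k ∉ A → Zs (k + 1) = be (Zs k) := by
    intro k hk
    rw [ZS]
    exact if_neg hk
  have ZQ : ∀ k, Q (Zs k) := by
    intro k
    induction k with
    | zero => exact hQ1 c le_rfl hcu
    | succ k ih =>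
      by_cases hk : Zs k ∈ A
      · rw [ZA k hk]
        exact ih
      · rw [ZW k hk]
        exact hQ2 _ ih hk
  have Zle : ∀ k, Zs (k + 1) ≤ Zs k := by
    intro k
    induction k with
    | zero =>
      by_cases hk : Zs 0 ∈ A
      · rw [ZA 0 hk]
      · rw [ZW 0 hk]
        exact glm c u0 hcu hk hAu
    | succ k ih =>
      by_cases hk : Zs (k + 1) ∈ A
      · rw [ZA (k + 1) hk]
      · have hk' : Zs k ∉ A := by
          intro h
          rw [ZA k h] at hk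
          exact hk h
        rw [ZW (k + 1) hk]
        refine (glm _ _ ih hk hk').trans ?_
        rw [ZW k hk']
  have Zanti : ∀ i j, i ≤ j → Zs j ≤ Zs i := by
    intro i j hij
    induction j, hij using Nat.le_induction with
    | base => exact le_rfl
    | succ j _ ih => exact (Zle j).trans ih
  have Zend : ∃ k, Zs k ∈ A := by
    by_contra hcon
    push Not at hcon
    have h5 : ∀ k, hgt (Zs k) + k ≤ hgt c := by
      intro k
      induction k with
      | zero => exact le_rfl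
      | succ k ih =>
        have h6 : Zs (k + 1) < Zs k := by
          refine lt_of_le_of_ne (Zle k) (fun e => nle (Zs k) ?_)
          have h7 := (hbe _ (hcon k)).2
          rw [← ZW k (hcon k), e] at h7
          exact h7
        have h7 := hgt_lt hn _ _ h6
        omega
    have h6 := h5 (hgt c + 1)
    omega
  -- an irrelevant point is not below all `Zs k`
  have Zirr : ∀ a y, a ∈ A → ¬ f a ≤ u0 → a ≤ y → ∃ k, ¬ y ≤ Zs (k + 1) := by
    intro a y ha hau hay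
    by_contra hcon
    push Not at hcon
    obtain ⟨k, hk⟩ := Zend
    have h5 : a ≤ Zs k := (hay.trans (hcon k)).trans (Zle k)
    exact hau ((hf h5).trans (hQ3 _ (ZQ k) hk))
  let nz : P → P := fun y => if h : ∃ k, ¬ y ≤ Zs (k + 1) then Zs (Nat.find h + 1) else c
  have nz_spec : ∀ y, y ≤ c → (∃ k, ¬ y ≤ Zs (k + 1)) →
      ∃ k, nz y = Zs (k + 1) ∧ y ≤ Zs k ∧ ¬ y ≤ Zs (k + 1) := by
    intro y hy h
    refine ⟨Nat.find h, ?_, ?_, Nat.find_spec h⟩
    · simp only [nz]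
      rw [dif_pos h]
    · rcases hk : Nat.find h with _ | k
      · exact hy
      · have h5 := Nat.find_min h (m := k) (by omega)
        exact not_not.1 h5
  -- consequences of `nz_spec`
  have nz_lt : ∀ y, y ≤ c → (∃ k, ¬ y ≤ Zs (k + 1)) → nz y < c := by
    intro y hy h
    obtain ⟨k, h5, h6, h7⟩ := nz_spec y hy h
    rw [h5]
    refine lt_of_lt_of_le (lt_of_le_of_ne (Zle k) ?_) (Zanti 0 k (Nat.zero_le k))
    intro e
    rw [e] at h7
    exact h7 h6
  have ZE : ∀ k, Zs k ≤ u0 := fun k => (Zanti 0 k (Nat.zero_le k)).trans hcu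
  have nz_val : ∀ y, y ≤ c → (∃ k, ¬ y ≤ Zs (k + 1)) → nz y ∈ E := by
    intro y hy h
    refine ⟨nz_lt y hy h, ?_⟩
    obtain ⟨k, h5, h6, h7⟩ := nz_spec y hy h
    have h8 : Zs k ∉ A := by
      intro h9
      rw [ZA k h9] at h7
      exact h7 h6
    exact ⟨Zs k, h8, ZE k, by rw [h5, ZW k h8]⟩
  have nz_not : ∀ y, y ≤ c → (∃ k, ¬ y ≤ Zs (k + 1)) → ¬ y ≤ nz y := by
    intro y hy h
    obtain ⟨k, h5, h6, h7⟩ := nz_spec y hy h
    rw [h5]
    exact h7
  have nz_ge : ∀ x y, y ≤ c → (∃ k, ¬ y ≤ Zs (k + 1)) → x ≤ y → x ∉ A →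
      be x ≤ nz y := by
    intro x y hy h hxy hx
    obtain ⟨k, h5, h6, h7⟩ := nz_spec y hy h
    have h8 : Zs k ∉ A := by
      intro h9
      rw [ZA k h9] at h7
      exact h7 h6
    rw [h5, ZW k h8]
    exact glm _ _ (hxy.trans h6) hx h8
  have nz_cmp : ∀ y y', y ≤ c → y' ≤ c → (∃ k, ¬ y ≤ Zs (k + 1)) → (∃ k, ¬ y' ≤ Zs (k + 1)) →
      nz y ≤ nz y' ∨ nz y' ≤ nz y := by
    intro y y' hy hy' h h'
    obtain ⟨k, h5, _, _⟩ := nz_spec y hy h
    obtain ⟨k', h5', _, _⟩ := nz_spec y' hy' h'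
    rw [h5, h5']
    rcases le_total (k + 1) (k' + 1) with h6 | h6
    · exact Or.inr (Zanti _ _ h6)
    · exact Or.inl (Zanti _ _ h6)
  -- the runs
  let As : Set P := {x | x ≤ u0 ∧ x ∈ A ∧ f x ≤ u0}
  let Val : P → P → Prop := fun x e => ∃ w, w ∉ A ∧ x ≤ w ∧ be w = e
  have hVal : ∀ x x', x ≤ x' → ∀ e, Val x' e → Val x e := by
    rintro x x' h e ⟨w, h5, h6, h7⟩
    exact ⟨w, h5, h.trans h6, h7⟩
  let ad : Lt P → P → P := fun ρ x => lo c ((OrderDual.ofDual ρ : Finset P).filter (Val x))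
  let K : Lt P → P → P := fun ρ x =>
    if h : ∃ j, ad ρ x ≤ j ∧ f x ≤ j ∧ ∀ u, ad ρ x ≤ u → f x ≤ u → j ≤ u then h.choose else s
  have hle : ∀ ρ ∈ LZ E, ∀ x ∈ (OrderDual.ofDual ρ : Finset P), x ≤ c := fun ρ hρ x hx =>
    (hEc x (hρ.1 (Finset.mem_coe.2 hx))).le
  have hch : ∀ ρ ∈ LZ E, ∀ x,
      IsChain (· ≤ ·) (((OrderDual.ofDual ρ : Finset P).filter (Val x) : Finset P) : Set P) :=
    fun ρ hρ x => hρ.2.mono (Finset.coe_subset.2 (Finset.filter_subset _ _))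
  have hlef : ∀ ρ ∈ LZ E, ∀ x, ∀ y ∈ (OrderDual.ofDual ρ : Finset P).filter (Val x), y ≤ c :=
    fun ρ hρ x y hy => hle ρ hρ y (Finset.mem_of_mem_filter y hy)
  have hads : ∀ ρ ∈ LZ E, ∀ x, ad ρ x ≤ c := fun ρ hρ x => lo_le c _ (hch ρ hρ x) (hlef ρ hρ x)
  have hstc : ∀ ρ ∈ LZ E, lo c (OrderDual.ofDual ρ) ≤ c := fun ρ hρ =>
    lo_le c _ hρ.2 (hle ρ hρ)
  have hlub : ∀ ρ ∈ LZ E, ∀ x ∈ As,
      ad ρ x ≤ K ρ x ∧ f x ≤ K ρ x ∧ ∀ u, ad ρ x ≤ u → f x ≤ u → K ρ x ≤ u := by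
    intro ρ hρ x hx
    have h : ∃ j, ad ρ x ≤ j ∧ f x ≤ j ∧ ∀ u, ad ρ x ≤ u → f x ≤ u → j ≤ u := by
      rcases ((OrderDual.ofDual ρ : Finset P).filter (Val x)).eq_empty_or_nonempty with he | he
      · have e : ad ρ x = c := by
          simp only [ad, he]
          exact lo_empty c
        rw [e]
        exact jd_ex x u0 hx.1 hx.2.1 hAu hcs
      · have h5 := (lo_of_chain c _ (hch ρ hρ x) he).1
        rw [Finset.mem_filter] at h5
        obtain ⟨h5, w, hw, hxw, hwe⟩ := h5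
        have h7 : be w < s := by
          rw [hwe]
          exact (hEc _ (hρ.1 (Finset.mem_coe.2 h5))).trans hcs
        have h6 := jd_ex x w hxw hx.2.1 hw h7
        rw [hwe] at h6
        exact h6
    simp only [K, dif_pos h]
    exact h.choose_spec
  have hKu : ∀ ρ ∈ LZ E, ∀ x ∈ As, K ρ x ≤ u0 := fun ρ hρ x hx =>
    (hlub ρ hρ x hx).2.2 _ ((hads ρ hρ x).trans hcu) hx.2.2
  have hKx : ∀ ρ ∈ LZ E, ∀ x ∈ As, ¬ K ρ x ≤ x := fun ρ hρ x hx h =>
    nge x ((hlub ρ hρ x hx).2.1.trans h)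
  have hst : ∀ ρ ∈ LZ E, ∀ ρ' ∈ LZ E, ρ ≤ ρ' →
      lo c (OrderDual.ofDual ρ) ≤ lo c (OrderDual.ofDual ρ') := fun ρ hρ ρ' _ h =>
    lo_anti c _ _ hρ.2 (hle ρ hρ) h
  have hd : ∀ ρ ∈ LZ E, ∀ x ∈ As, lo c (OrderDual.ofDual ρ) ≤ K ρ x := fun ρ hρ x hx =>
    (lo_anti c _ _ hρ.2 (hle ρ hρ) (Finset.filter_subset _ _)).trans (hlub ρ hρ x hx).1
  have hK : ∀ ρ ∈ LZ E, ∀ ρ' ∈ LZ E, ∀ x ∈ As, ∀ x' ∈ As, ρ ≤ ρ' → x ≤ x' →
      K ρ x ≤ K ρ' x' := by
    intro ρ hρ ρ' hρ' x hx x' hx' h hxx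
    refine (hlub ρ hρ x hx).2.2 _ ((lo_anti c _ _ (hch ρ hρ x) (hlef ρ hρ x) ?_).trans
      (hlub ρ' hρ' x' hx').1) ((hf hxx).trans (hlub ρ' hρ' x' hx').2.1)
    intro y hy
    rw [Finset.mem_filter] at hy ⊢
    exact ⟨h hy.1, hVal x x' hxx y hy.2⟩
  have htop : ∀ ρ ∈ LZ E, ρ ≤ (OrderDual.toDual (∅ : Finset P) : Lt P) := by
    intro ρ _
    show (∅ : Finset P) ⊆ OrderDual.ofDual ρ
    exact Finset.empty_subset _
  obtain ⟨v, hv1, hv2⟩ := sweeps' (n + 2) (by omega)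
    (fun c hc => (hn c hc).trans (by omega)) (OrderDual.toDual (∅ : Finset P) : Lt P) As (LZ E)
    (LZ_top E) htop (fun ρ => lo c (OrderDual.ofDual ρ)) K hst hK hd hKx
  -- facts on the exits
  let z0 : Fin (n + 2) := ⟨0, by omega⟩
  let zl : Fin (n + 2) := ⟨n + 1, by omega⟩
  have hz0l : z0 < zl := by
    show (0 : ℕ) < n + 1
    omega
  have hvu : ∀ δ, Helper31.FX.Rel δ δ → (∀ j, δ j ∈ LZ E) → v δ ≤ u0 := by
    intro δ hδ hδZ
    obtain ⟨_, h5, _⟩ := hv1 δ hδ hδZ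
    rcases h5 with e | ⟨j, z, hz, _, e⟩
    · rw [e]
      exact (hstc _ (hδZ _)).trans hcu
    · rw [e]
      exact hKu _ (hδZ j) z hz
  -- irrelevant exits are starting points
  have hirr : ∀ δ, Helper31.FX.Rel δ δ → (∀ j, δ j ∈ LZ E) → v δ ∈ A →
      v δ = lo c (OrderDual.ofDual (δ z0)) ∧ ¬ f (v δ) ≤ u0 := by
    intro δ hδ hδZ hA
    obtain ⟨h5, h6, _⟩ := hv1 δ hδ hδZ
    have h7 : ¬ f (v δ) ≤ u0 := fun h => h5 ⟨hvu δ hδ hδZ, hA, h⟩
    refine ⟨?_, h7⟩
    rcases h6 with e | ⟨j, z, hz, hzv, e⟩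
    · exact e
    · exact absurd (Gup z (v δ) hz.2.1 hz.2.2 hzv hA) h7
  have hend : ∀ δ, Helper31.FX.Rel δ δ → (∀ j, δ j ∈ LZ E) →
      lo c (OrderDual.ofDual (δ z0)) ≤ lo c (OrderDual.ofDual (δ zl)) := fun δ hδ hδZ =>
    hst _ (hδZ _) _ (hδZ _) (hδ.2 z0 zl hz0l)
  have hzirr : ∀ δ, Helper31.FX.Rel δ δ → (∀ j, δ j ∈ LZ E) → v δ ∈ A →
      ∃ k, ¬ lo c (OrderDual.ofDual (δ zl)) ≤ Zs (k + 1) := by
    intro δ hδ hδZ hA
    obtain ⟨h5, h6⟩ := hirr δ hδ hδZ hA
    exact Zirr (v δ) _ hA h6 (h5 ▸ hend δ hδ hδZ)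
  have hlt : ∀ δ, Helper31.FX.Rel δ δ → (∀ j, δ j ∈ LZ E) → v δ ∉ A →
      be (v δ) < c := by
    intro δ hδ hδZ hA
    refine lt_of_le_of_ne (glm _ _ (hvu δ hδ hδZ) hA hAu) (fun e => nle (v δ) ?_)
    have h5 : c ≤ f (v δ) := by
      have h6 := (hbe _ hA).2
      rw [e] at h6
      exact h6
    obtain ⟨_, h6, _⟩ := hv1 δ hδ hδZ
    rcases h6 with e1 | ⟨j, z, hz, hzv, e1⟩
    · have h7 : v δ ≤ c := by
        rw [e1]
        exact hstc _ (hδZ _)
      exact h7.trans h5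
    · have h7 : K (δ j) z ≤ f (v δ) :=
        (hlub _ (hδZ j) z hz).2.2 _ ((hads _ (hδZ j) z).trans h5) (hf hzv)
      rw [← e1] at h7
      exact h7
  let lam : (Fin (n + 2) → Lt P) → P := fun δ =>
    if v δ ∈ A then nz (lo c (OrderDual.ofDual (δ zl))) else be (v δ)
  have lamA : ∀ δ, v δ ∈ A → lam δ = nz (lo c (OrderDual.ofDual (δ zl))) := fun δ h => if_pos h
  have lamW : ∀ δ, v δ ∉ A → lam δ = be (v δ) := fun δ h => if_neg h
  refine ⟨u0, hu, hmax, hAu, hcs, n + 2, lam, ?_, ?_, ?_⟩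
  · intro δ hδ hδZ
    by_cases hA : v δ ∈ A
    · rw [lamA δ hA]
      exact nz_val _ (hstc _ (hδZ _)) (hzirr δ hδ hδZ hA)
    · rw [lamW δ hA]
      exact ⟨hlt δ hδ hδZ hA, v δ, hA, hvu δ hδ hδZ, rfl⟩
  · intro δ δ' hr h5 h5' hz hz'
    by_cases hA : v δ ∈ A <;> by_cases hA' : v δ' ∈ A
    · rw [lamA δ hA, lamA δ' hA']
      exact nz_cmp _ _ (hstc _ (hz _)) (hstc _ (hz' _)) (hzirr δ h5 hz hA)
        (hzirr δ' h5' hz' hA')
    · right
      rw [lamA δ hA, lamW δ' hA']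
      obtain ⟨e, h6⟩ := hirr δ h5 hz hA
      -- the run of `δ'` stops at its starting point
      have h7 : lo c (OrderDual.ofDual (δ z0)) ≤ lo c (OrderDual.ofDual (δ' z0)) :=
        hst _ (hz _) _ (hz' _) (hr.1 z0)
      have h8 : v δ' = lo c (OrderDual.ofDual (δ' z0)) := by
        refine (hv1 δ' h5' hz').2.2 (fun h => h6 ?_)
        rw [e]
        exact (hf h7).trans h.2.2
      refine nz_ge _ _ (hstc _ (hz _)) (hzirr δ h5 hz hA) ?_ hA'
      rw [h8]
      exact hst _ (hz' _) _ (hz _) (hr.2 z0 zl hz0l)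
    · left
      rw [lamW δ hA, lamA δ' hA']
      obtain ⟨e, h6⟩ := hirr δ' h5' hz' hA'
      have h7 : lo c (OrderDual.ofDual (δ z0)) ≤ lo c (OrderDual.ofDual (δ' z0)) :=
        hst _ (hz _) _ (hz' _) (hr.1 z0)
      have h8 : v δ = lo c (OrderDual.ofDual (δ z0)) := by
        refine (hv1 δ h5 hz).2.2 (fun h => h6 ?_)
        refine Gup _ _ h.2.1 h.2.2 ?_ hA'
        rw [e]
        exact h7
      refine nz_ge _ _ (hstc _ (hz' _)) (hzirr δ' h5' hz' hA') ?_ hA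
      rw [h8]
      exact h7.trans (hend δ' h5' hz')
    · rw [lamW δ hA, lamW δ' hA']
      rcases hv2 δ δ' hr h5 h5' hz hz' with h | h
      · exact Or.inl (glm _ _ h hA hA')
      · exact Or.inr (glm _ _ h hA' hA)
  · intro δ hδ hδZ x hx hcon
    by_cases hA : v δ ∈ A
    · rw [lamA δ hA] at hcon
      have h5 : lo c (OrderDual.ofDual (δ zl)) ≤ x :=
        (lo_of_chain c _ (hδZ zl).2 ⟨x, hx zl⟩).2 _ (hx zl)
      rw [← hcon] at h5
      exact nz_not _ (hstc _ (hδZ _)) (hzirr δ hδ hδZ hA) h5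
    · rw [lamW δ hA] at hcon
      have hlb : x ≤ f (v δ) := hcon ▸ (hbe _ hA).2
      obtain ⟨_, h6, _⟩ := hv1 δ hδ hδZ
      apply nle (v δ)
      rcases h6 with e1 | ⟨j, z, hz, hzv, e1⟩
      · have h7 : v δ ≤ x := by
          rw [e1]
          exact (lo_of_chain c _ (hδZ _).2 ⟨x, hx _⟩).2 _ (hx _)
        exact h7.trans hlb
      · have hmem : x ∈ (OrderDual.ofDual (δ j) : Finset P).filter (Val z) := by
          rw [Finset.mem_filter]
          exact ⟨hx j, v δ, hA, hzv, hcon⟩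
        have h7 : ad (δ j) z ≤ x := (lo_of_chain c _ (hch _ (hδZ j) z) ⟨_, hmem⟩).2 _ hmem
        have h8 : K (δ j) z ≤ f (v δ) :=
          (hlub _ (hδZ j) z hz).2.2 _ (h7.trans hlb) (hf hzv)
        rw [← e1] at h8
        exact h8

/-- Selection form. The common upper bounds of `s` and `f x` have a greatest element for `x` in
`A`; `be w` is a monotone choice of common lower bounds of `s` and `f w` off `A`; the joins of
`be w < s` and `f x` exist for `x < w`, `x` in `A`, `w` not in `A`. For every maximal `u >= s` the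
values of `be` below `be u`, at points below `u`, have a covering without bounded ray. -/
theorem main_coh_sel (P : Type u) [PartialOrder P]
    (hfin : ∃ n : ℕ, ∀ c : Finset P, IsChain (· ≤ ·) (c : Set P) → c.card ≤ n) (s : P)
    (f : P → P) (hf : Monotone f)
    (A : Set P) (hA : ∀ x ∈ A, ∃ z : P, IsGreatest {v : P | s ≤ v ∧ f x ≤ v} z)
    (be : P → P) (hbe : ∀ w, w ∉ A → be w ≤ s ∧ be w ≤ f w)
    (hm : ∀ v w, v ∉ A → w ∉ A → v ≤ w → be v ≤ be w)
    (hj : ∀ x w, x < w → x ∈ A → w ∉ A → be w < s → ∃ z : P, IsLUB ({be w, f x} : Set P) z)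
    (ht : ∀ u, s ≤ u → (∀ v, u ≤ v → v = u) → u ∉ A → be u < s →
      CoverTame {d : P | d < be u ∧ ∃ w, w ∉ A ∧ w ≤ u ∧ be w = d}) :
    ∃ x : P, f x = x := by
  by_contra hno
  obtain ⟨u0, h1, h2, h3, h4, r, lam, k1, k2, k3⟩ :=
    exists_label_sel hfin s f hf hno A hA be hbe hm hj
  obtain ⟨X, hX, q, hq, hr⟩ := ht u0 h1 h2 h3 h4
  exact Helper9.FX.no_labelling_cover r (be u0) (Evals A be u0) (fun d hd => hd.1) lam k1 k2 k3
    q hq hr

end Pool.Agent.Helper43.SPH
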