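import Pool.Agent.Helper43.SPH.CohLabel
import Pool.Agent.Helper9.FX.Cover2

/-!
MP_3976d4_co: coheight at most one, the part below every `c < s` tame.
-/

set_option autoImplicit false
set_option linter.unusedSectionVars false

universe u

namespace Pool.Agent.Helper43.SPH

open Helper31.FX (CoverTame)

/-- All elements above `s` are maximal, and for every `c < s` some covering of `{d | d < c}` has no
ray of bounded diameter (or: no chain `a < b < c < e < s`; or: `s` is maximal). -/
theorem main_coh_tame (P : Type u) [PartialOrder P]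
    (hfin : ∃ n : ℕ, ∀ c : Finset P, IsChain (· ≤ ·) (c : Set P) → c.card ≤ n) (s : P)
    (h1 : ∀ x : P, (∃ z : P, IsLUB ({s, x} : Set P) z) ∨ (∃ z : P, IsGLB ({s, x} : Set P) z))
    (h2 : ∀ x y : P, x < y → (¬ ∃ z : P, IsGLB ({s, x} : Set P) z) →
      ∀ m : P, IsGLB ({s, y} : Set P) m → ∃ z : P, IsLUB ({m, x} : Set P) z)
    (h4 : ∀ u v : P, s < u → ¬ u < v)
    (ht : (∀ c : P, c < s → CoverTame {d : P | d < c}) ∨
      (∀ a b c e : P, a < b → b < c → c < e → ¬ e < s) ∨ IsMax s)
    (f : P → P) (hf : Monotone f) : ∃ x : P, f x = x := by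
  rcases ht with ht | ht
  · by_contra hno
    obtain ⟨c, hc, r, lam, k1, k2, k3⟩ := exists_label_coh hfin s h1 h2 h4 f hf hno
    obtain ⟨X, hX, q, hq, hr⟩ := ht c hc
    exact Helper9.FX.no_labelling_cover r c {d : P | d < c} (fun d hd => hd) lam k1 k2 k3 q hq hr
  · exact main_coh hfin s h1 h2 ht h4 f hf

end Pool.Agent.Helper43.SPH
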