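import Pool.Agent.Helper43.SPH.Tree

/-!
MP_3976d4_co: a monotone map without fixed points of a poset of finite length with a special
element of height at most two leads to a map of the tree of reduced walks which contradicts
`tree_fp`.
-/

set_option autoImplicit false
set_option linter.unusedSectionVars false

universe u

namespace Pool.Agent.Helper43.SPH

/-- A fixed point free monotone map `f`, together with choices of joins and labels. `A` is the set of
elements without meet with `s`, `js z` the join of `s` and `z`, `lab w` the label of `w` (an element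
of `B`, below `s` and `w`), `jd d z` the join of `d` and `z`. -/
structure Dat (P : Type u) [PartialOrder P] where
  s : P
  f : P → P
  A : P → Prop
  js : P → P
  lab : P → P
  jd : P → P → P
  B : P → Prop
  ht : P → ℕ
  N : ℕ
  mono : Monotone f
  nle : ∀ x, ¬ x ≤ f x
  nge : ∀ x, ¬ f x ≤ x
  ht_lt : ∀ x y, x < y → ht x < ht y
  ht_le : ∀ x, ht x ≤ N
  hjs : ∀ z, A z → s ≤ js z ∧ z ≤ js z ∧ ∀ u, s ≤ u → z ≤ u → js z ≤ u
  B_le : ∀ b, B b → b ≤ s
  lab_B : ∀ w, ¬ A w → ¬ s ≤ w → B (lab w)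
  lab_le : ∀ w, ¬ A w → ¬ s ≤ w → lab w ≤ w
  le_lab : ∀ w, ¬ A w → ¬ s ≤ w → ∀ b, B b → b ≤ w → b ≤ lab w
  hjd : ∀ z w, A z → z ≤ w → ¬ A w → ¬ s ≤ w →
    lab w ≤ jd (lab w) z ∧ z ≤ jd (lab w) z ∧ ∀ u, lab w ≤ u → z ≤ u → jd (lab w) z ≤ u
  no3 : ∀ a b c, B a → B b → B c → Cmp a b → Cmp a c → Cmp b c → a = b ∨ a = c ∨ b = c

namespace Dat

variable {P : Type u} [PartialOrder P] (d : Dat P)

/-- `x` is below every upper bound of `b` and `f x` -/
def Inv (b x : P) : Prop := ∀ u, b ≤ u → d.f x ≤ u → x ≤ u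

/-- labels of elements above `z` -/
def ds (z b : P) : Prop := ∃ w, z ≤ w ∧ ¬ d.A w ∧ ¬ d.s ≤ w ∧ d.lab w = b

include d in
lemma up {p : P → Prop} (h : ∀ x, (∀ y, x < y → p y) → p x) (x : P) : p x := by
  have key : ∀ k : ℕ, ∀ x, d.N - d.ht x ≤ k → p x := by
    intro k
    induction k with
    | zero =>
      intro x hx
      refine h x (fun y hy => ?_)
      have h1 := d.ht_lt x y hy
      have h2 := d.ht_le y
      omega
    | succ k ih =>
      intro x hx
      refine h x (fun y hy => ih y ?_)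
      have h1 := d.ht_lt x y hy
      have h2 := d.ht_le y
      omega
  exact key _ x le_rfl

variable {d}

lemma Inv.mono {a b x : P} (hab : a ≤ b) (h : d.Inv a x) : d.Inv b x :=
  fun u h1 h2 => h u (hab.trans h1) h2

lemma Inv.self (b : P) : d.Inv b b := fun _ h _ => h

lemma Inv.nle {b x : P} (h : d.Inv b x) : ¬ b ≤ d.f x := fun h1 => d.nle x (h _ h1 le_rfl)

lemma js_gt {x : P} (h : d.Inv d.s x) (hA : d.A (d.f x)) : x < d.js (d.f x) := by
  obtain ⟨h1, h2, h3⟩ := d.hjs _ hA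
  refine lt_of_le_of_ne (h _ h1 h2) (fun e => d.nge x ?_)
  rw [← e] at h2
  exact h2

lemma js_inv {x : P} (h : d.Inv d.s x) (hA : d.A (d.f x)) : d.Inv d.s (d.js (d.f x)) := by
  obtain ⟨h1, h2, h3⟩ := d.hjs _ hA
  exact fun u h4 h5 => h3 u h4 ((d.mono (js_gt h hA).le).trans h5)

variable (d) in
open Classical in
/-- the label of `x` -/
noncomputable def D (x : P) : P :=
  if h : d.A (d.f x) ∧ x < d.js (d.f x) then D (d.js (d.f x)) else d.lab (d.f x)
termination_by d.N - d.ht x
decreasing_by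
  have h1 := d.ht_lt _ _ h.2
  have h2 := d.ht_le (d.js (d.f x))
  omega

lemma D_step {x : P} (h : d.Inv d.s x) (hA : d.A (d.f x)) : d.D x = d.D (d.js (d.f x)) := by
  conv_lhs => rw [D]
  rw [dif_pos ⟨hA, js_gt h hA⟩]

lemma D_stop {x : P} (hA : ¬ d.A (d.f x)) : d.D x = d.lab (d.f x) := by
  rw [D, dif_neg (fun h => hA h.1)]

lemma D_spec {x : P} (h : d.Inv d.s x) :
    ∃ y, x ≤ y ∧ ¬ d.A (d.f y) ∧ ¬ d.s ≤ d.f y ∧ d.D x = d.lab (d.f y) := by
  revert h
  refine d.up (p := fun x => d.Inv d.s x →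
    ∃ y, x ≤ y ∧ ¬ d.A (d.f y) ∧ ¬ d.s ≤ d.f y ∧ d.D x = d.lab (d.f y)) ?_ x
  intro x ih h
  by_cases hA : d.A (d.f x)
  · obtain ⟨y, h1, h2, h3, h4⟩ := ih _ (js_gt h hA) (js_inv h hA)
    exact ⟨y, (js_gt h hA).le.trans h1, h2, h3, (D_step h hA).trans h4⟩
  · exact ⟨x, le_rfl, hA, h.nle, D_stop hA⟩

lemma D_B {x : P} (h : d.Inv d.s x) : d.B (d.D x) := by
  obtain ⟨y, _, h2, h3, h4⟩ := D_spec h
  rw [h4]
  exact d.lab_B _ h2 h3

lemma le_D {x b : P} (h : d.Inv d.s x) (hb : d.B b) (hx : b ≤ d.f x) : b ≤ d.D x := by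
  obtain ⟨y, h1, h2, h3, h4⟩ := D_spec h
  rw [h4]
  exact d.le_lab _ h2 h3 b hb (hx.trans (d.mono h1))

lemma D_ds {x z : P} (h : d.Inv d.s x) (hz : z ≤ d.f x) : d.ds z (d.D x) := by
  obtain ⟨y, h1, h2, h3, h4⟩ := D_spec h
  exact ⟨d.f y, hz.trans (d.mono h1), h2, h3, h4.symm⟩

lemma D_le {x : P} (h : d.Inv d.s x) (hA : ¬ d.A (d.f x)) : d.D x ≤ d.f x := by
  rw [D_stop hA]
  exact d.lab_le _ hA h.nle

lemma cmp {x y : P} (hx : d.Inv d.s x) (hy : d.Inv d.s y) (hxy : x ≤ y)
    (h : d.A (d.f x) → y ≤ d.js (d.f x)) : Cmp (d.D x) (d.D y) := by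
  have key : ∀ k : ℕ, ∀ x y, d.Inv d.s x → d.Inv d.s y → x ≤ y →
      (d.A (d.f x) → y ≤ d.js (d.f x)) → (d.N - d.ht x) + (d.N - d.ht y) ≤ k →
      Cmp (d.D x) (d.D y) := by
    intro k
    induction k with
    | zero =>
      intro x y hx hy hxy h hk
      have hA : ¬ d.A (d.f x) := by
        intro hA
        have h1 := d.ht_lt _ _ (js_gt hx hA)
        have h2 := d.ht_le (d.js (d.f x))
        omega
      exact Or.inl (le_D hy (D_B hx) ((D_le hx hA).trans (d.mono hxy)))
    | succ k ih =>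
      intro x y hx hy hxy h hk
      by_cases hA : d.A (d.f x)
      · rw [D_step hx hA]
        refine (ih y (d.js (d.f x)) hy (js_inv hx hA) (h hA) (fun hA' => ?_) ?_).symm
        · obtain ⟨h1, h2, _⟩ := d.hjs _ hA'
          exact (d.hjs _ hA).2.2 _ h1 ((d.mono hxy).trans h2)
        · have h1 := d.ht_lt _ _ (js_gt hx hA)
          have h2 := d.ht_le (d.js (d.f x))
          omega
      · exact Or.inl (le_D hy (D_B hx) ((D_le hx hA).trans (d.mono hxy)))
  exact key _ x y hx hy hxy h le_rfl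

/-! ### the climb with base `b` -/

variable (d) in
/-- domain of the map `x ↦ b ∨ f x` -/
def dom (b x : P) : Prop := d.A (d.f x) ∧ d.ds (d.f x) b

variable (d) in
/-- `b ∨ f x` -/
def nx (b x : P) : P := d.jd b (d.f x)

lemma nx_spec {b x : P} (h : d.dom b x) :
    b ≤ d.nx b x ∧ d.f x ≤ d.nx b x ∧ ∀ u, b ≤ u → d.f x ≤ u → d.nx b x ≤ u := by
  obtain ⟨hA, w, h1, h2, h3, rfl⟩ := h
  exact d.hjd _ w hA h1 h2 h3

lemma nx_gt {b x : P} (h : d.Inv b x) (hd : d.dom b x) : x < d.nx b x := by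
  obtain ⟨h1, h2, h3⟩ := nx_spec hd
  refine lt_of_le_of_ne (h _ h1 h2) (fun e => d.nge x ?_)
  rw [← e] at h2
  exact h2

lemma nx_inv {b x : P} (h : d.Inv b x) (hd : d.dom b x) : d.Inv b (d.nx b x) := by
  obtain ⟨h1, h2, h3⟩ := nx_spec hd
  exact fun u h4 h5 => h3 u h4 ((d.mono (nx_gt h hd).le).trans h5)

lemma nx_le_js {b x : P} (hb : d.B b) (hd : d.dom b x) : d.nx b x ≤ d.js (d.f x) := by
  obtain ⟨h1, h2, _⟩ := d.hjs _ hd.1
  exact (nx_spec hd).2.2 _ ((d.B_le b hb).trans h1) h2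

variable (d) in
open Classical in
/-- the lifted label at the end of the climb with base `b` from the pair `(x, t)` -/
noncomputable def cl (b x : P) (t : List P) : List P :=
  if h : d.dom b x ∧ x < d.nx b x then cl b (d.nx b x) (stp t (d.D (d.nx b x))) else t
termination_by d.N - d.ht x
decreasing_by
  have h1 := d.ht_lt _ _ h.2
  have h2 := d.ht_le (d.nx b x)
  omega

lemma cl_step {b x : P} (t : List P) (h : d.Inv b x) (hd : d.dom b x) :
    d.cl b x t = d.cl b (d.nx b x) (stp t (d.D (d.nx b x))) := by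
  conv_lhs => rw [cl]
  rw [dif_pos ⟨hd, nx_gt h hd⟩]

lemma cl_stop {b x : P} (t : List P) (hd : ¬ d.dom b x) : d.cl b x t = t := by
  rw [cl, dif_neg (fun h => hd h.1)]

variable {c : P}

/-- the pair `(x, t)` is admissible for the climb with base `b` -/
structure Adm (d : Dat P) (c b x : P) (t : List P) : Prop where
  inv : d.Inv b x
  bB : d.B b
  red : Red d.B c t
  hd : t.head? = some (d.D x)

namespace Adm

lemma invs {b x : P} {t : List P} (h : Adm d c b x t) : d.Inv d.s x :=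
  h.inv.mono (d.B_le b h.bB)

lemma next {b x : P} {t : List P} (h : Adm d c b x t) (hd : d.dom b x) :
    Adm d c b (d.nx b x) (stp t (d.D (d.nx b x))) := by
  have h1 : d.Inv d.s (d.nx b x) := (nx_inv h.inv hd).mono (d.B_le b h.bB)
  refine ⟨nx_inv h.inv hd, h.bB, red_stp h.red (D_B h1) h.hd ?_, head_stp _ _⟩
  exact cmp h.invs h1 (nx_gt h.inv hd).le (fun _ => nx_le_js h.bB hd)

lemma mono {a b x : P} {t : List P} (h : Adm d c a x t) (hb : d.B b) (hab : a ≤ b) :
    Adm d c b x t := ⟨h.inv.mono hab, hb, h.red, h.hd⟩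

end Adm

lemma cl_red {b x : P} {t : List P} (h : Adm d c b x t) : Red d.B c (d.cl b x t) := by
  revert t
  refine d.up (p := fun x => ∀ {t : List P}, Adm d c b x t → Red d.B c (d.cl b x t)) ?_ x
  intro x ih t h
  by_cases hd : d.dom b x
  · rw [cl_step t h.inv hd]
    exact ih _ (nx_gt h.inv hd) (h.next hd)
  · rw [cl_stop t hd]
    exact h.red

lemma cl_len {b x : P} {t : List P} (h : Adm d c b x t) :
    (d.cl b x t).length ≤ t.length + (d.N - d.ht x) := by
  revert t
  refine d.up (p := fun x => ∀ {t : List P}, Adm d c b x t →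
    (d.cl b x t).length ≤ t.length + (d.N - d.ht x)) ?_ x
  intro x ih t h
  by_cases hd : d.dom b x
  · rw [cl_step t h.inv hd]
    have h1 := ih _ (nx_gt h.inv hd) (h.next hd)
    have h2 := len_stp t (d.D (d.nx b x))
    have h3 := d.ht_lt _ _ (nx_gt h.inv hd)
    have h4 := d.ht_le (d.nx b x)
    omega
  · rw [cl_stop t hd]
    omega

lemma cl_ne {b x : P} {t : List P} (h : Adm d c b x t) : (d.cl b x t).head? ≠ some b := by
  revert t
  refine d.up (p := fun x => ∀ {t : List P}, Adm d c b x t →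
    (d.cl b x t).head? ≠ some b) ?_ x
  intro x ih t h
  by_cases hd : d.dom b x
  · rw [cl_step t h.inv hd]
    exact ih _ (nx_gt h.inv hd) (h.next hd)
  · rw [cl_stop t hd, h.hd]
    intro e
    have e' : d.D x = b := Option.some.inj e
    by_cases hA : d.A (d.f x)
    · exact hd ⟨hA, e' ▸ D_ds h.invs le_rfl⟩
    · exact h.inv.nle (e' ▸ D_le h.invs hA)

lemma tri {x y z : P} {t t₁ t₂ : List P} (h : Red d.B c t) (h₁ : Red d.B c t₁)
    (h₂ : Red d.B c t₂) (e : t.head? = some x) (e₁ : t₁.head? = some y) (e₂ : t₂.head? = some z)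
    (a₁ : Adj t t₁) (a₂ : Adj t t₂) (bx : d.B x) (bY : d.B y) (bz : d.B z) (c1 : Cmp x y)
    (c2 : Cmp x z) (c3 : Cmp y z) : Adj t₁ t₂ := by
  refine adj_tri h h₁ h₂ a₁ a₂ ?_
  rw [e, e₁, e₂]
  rcases d.no3 x y z bx bY bz c1 c2 c3 with h | h | h
  · exact Or.inl (by rw [h])
  · exact Or.inr (Or.inl (by rw [h]))
  · exact Or.inr (Or.inr (by rw [h]))

/-- The climb with base `b` of `y` keeps its lifted label next to the one of `x ≤ y` if the value at
`x` has a meet with `s`. -/
lemma star {b x : P} {t : List P} (hx : Adm d c b x t) (hA : ¬ d.A (d.f x)) (y : P) :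
    ∀ t' : List P, Adm d c b y t' → x ≤ y → Adj t t' → Adj t (d.cl b y t') := by
  refine d.up (p := fun y => ∀ t' : List P, Adm d c b y t' → x ≤ y → Adj t t' →
    Adj t (d.cl b y t')) ?_ y
  intro y ih t' hy hxy ha
  by_cases hd : d.dom b y
  · rw [cl_step t' hy.inv hd]
    have h1 := nx_gt hy.inv hd
    have h2 := hy.next hd
    refine ih _ h1 _ h2 (hxy.trans h1.le) ?_
    refine tri hy.red hx.red h2.red hy.hd hx.hd h2.hd ha.symm (adj_stp _ _) (D_B hy.invs)
      (D_B hx.invs) (D_B h2.invs) ?_ ?_ ?_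
    · exact Or.inr (le_D hy.invs (D_B hx.invs) ((D_le hx.invs hA).trans (d.mono hxy)))
    · exact cmp hy.invs h2.invs h1.le (fun _ => nx_le_js hy.bB hd)
    · exact Or.inl (le_D h2.invs (D_B hx.invs)
        ((D_le hx.invs hA).trans (d.mono (hxy.trans h1.le))))
  · rw [cl_stop t' hd]
    exact ha

/-- comparison of two climbs with the same base -/
lemma adj_cl {b x y : P} {t t' : List P} (hx : Adm d c b x t) (hy : Adm d c b y t') (hxy : x ≤ y)
    (ha : Adj t t') (h1 : d.A (d.f x) → y ≤ d.js (d.f x)) (h2 : d.dom b x → y ≤ d.nx b x) :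
    Adj (d.cl b x t) (d.cl b y t') := by
  have key : ∀ k : ℕ, ∀ (x y : P) (t t' : List P), Adm d c b x t → Adm d c b y t' → x ≤ y →
      Adj t t' → (d.A (d.f x) → y ≤ d.js (d.f x)) → (d.dom b x → y ≤ d.nx b x) →
      (d.N - d.ht x) + (d.N - d.ht y) ≤ k → Adj (d.cl b x t) (d.cl b y t') := by
    intro k
    induction k with
    | zero =>
      intro x y t t' hx hy hxy ha h1 h2 hk
      have hd : ¬ d.dom b x := by
        intro hd
        have h3 := d.ht_lt _ _ (nx_gt hx.inv hd)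
        have h4 := d.ht_le (d.nx b x)
        omega
      have hd' : ¬ d.dom b y := by
        intro hd
        have h3 := d.ht_lt _ _ (nx_gt hy.inv hd)
        have h4 := d.ht_le (d.nx b y)
        omega
      rw [cl_stop t hd, cl_stop t' hd']
      exact ha
    | succ k ih =>
      intro x y t t' hx hy hxy ha h1 h2 hk
      by_cases hd : d.dom b x
      · rw [cl_step t hx.inv hd]
        have h3 := nx_gt hx.inv hd
        have h4 := hx.next hd
        have h5 : d.A (d.f y) → d.nx b x ≤ d.js (d.f y) := by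
          intro hA'
          obtain ⟨h6, h7, _⟩ := d.hjs _ hA'
          exact (nx_spec hd).2.2 _ ((d.B_le b hx.bB).trans h6) ((d.mono hxy).trans h7)
        refine (ih y (d.nx b x) t' _ hy h4 (h2 hd) ?_ h5 (fun hd' => ?_) ?_).symm
        · refine tri hx.red hy.red h4.red hx.hd hy.hd h4.hd ha (adj_stp _ _) (D_B hx.invs)
            (D_B hy.invs) (D_B h4.invs) ?_ ?_ ?_
          · exact cmp hx.invs hy.invs hxy h1
          · exact cmp hx.invs h4.invs h3.le (fun _ => nx_le_js hx.bB hd)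
          · exact cmp hy.invs h4.invs (h2 hd) h5
        · obtain ⟨h6, h7, _⟩ := nx_spec hd'
          exact (nx_spec hd).2.2 _ h6 ((d.mono hxy).trans h7)
        · have h6 := d.ht_lt _ _ h3
          have h7 := d.ht_le (d.nx b x)
          omega
      · rw [cl_stop t hd]
        by_cases hA : d.A (d.f x)
        · have hd' : ¬ d.dom b y := by
            rintro ⟨_, w, h3, h4⟩
            exact hd ⟨hA, w, (d.mono hxy).trans h3, h4⟩
          rw [cl_stop t' hd']
          exact ha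
        · exact star hx hA y t' hy hxy ha
  exact key _ x y t t' hx hy hxy ha h1 h2 le_rfl

/-- The climb with base `b` never reaches the label `a` if `a` is not a label above `z`. -/
lemma tail_path {a b z : P} (hz : ¬ d.ds z a) (y : P) :
    ∀ t : List P, Adm d c b y t → z ≤ d.f y →
      Relation.ReflTransGen (Ok b a) t (d.cl b y t) := by
  refine d.up (p := fun y => ∀ t : List P, Adm d c b y t → z ≤ d.f y →
      Relation.ReflTransGen (Ok b a) t (d.cl b y t)) ?_ y
  intro y ih t hy hzy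
  by_cases hd : d.dom b y
  · rw [cl_step t hy.inv hd]
    have h1 := nx_gt hy.inv hd
    have h2 := hy.next hd
    have h3 : z ≤ d.f (d.nx b y) := hzy.trans (d.mono h1.le)
    refine Relation.ReflTransGen.head ⟨adj_stp _ _, ?_⟩ (ih _ h1 _ h2 h3)
    rintro ⟨_, h4⟩
    rw [head_stp] at h4
    exact hz (Option.some.inj h4 ▸ D_ds h2.invs h3)
  · rw [cl_stop t hd]

/-- the path between the ends of the two climbs from the same point -/
lemma path {a b : P} (hb : d.B b) (hab : a ≤ b) (x : P) :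
    ∀ t : List P, Adm d c a x t →
      Relation.ReflTransGen (Ok b a) (d.cl a x t) (d.cl b x t) := by
  refine d.up (p := fun x => ∀ t : List P, Adm d c a x t →
      Relation.ReflTransGen (Ok b a) (d.cl a x t) (d.cl b x t)) ?_ x
  intro x ih t hx
  by_cases hd : d.dom a x
  · rw [cl_step t hx.inv hd]
    have h1 := nx_gt hx.inv hd
    have h2 := hx.next hd
    refine Relation.ReflTransGen.tail (ih _ h1 _ h2) ⟨?_, ?_⟩
    · refine (adj_cl (hx.mono hb hab) (h2.mono hb hab) h1.le (adj_stp _ _)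
        (fun _ => nx_le_js hx.bB hd) (fun hd' => ?_)).symm
      obtain ⟨h3, h4, _⟩ := nx_spec hd'
      exact (nx_spec hd).2.2 _ (hab.trans h3) h4
    · rintro ⟨h3, _⟩
      exact cl_ne (h2.mono hb hab) h3
  · rw [cl_stop t hd]
    by_cases hd' : d.dom b x
    · refine tail_path (z := d.f x) (fun h => hd ⟨hd'.1, h⟩) x t (hx.mono hb hab) le_rfl
    · rw [cl_stop t hd']

theorem absurd (d : Dat P) : False := by
  set c := d.D d.s with hc
  have hs : d.Inv d.s d.s := Inv.self d.s
  have hcB : d.B c := D_B hs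
  have hI : ∀ b, d.B b → d.Inv d.s b := fun b hb => (Inv.self b).mono (d.B_le b hb)
  have hcs : ∀ b, d.B b → Cmp c (d.D b) := fun b hb =>
    (cmp (hI b hb) hs (d.B_le b hb) (fun hA => (d.hjs _ hA).1)).symm
  have hadm : ∀ b, d.B b → Adm d c b b (stp [c] (d.D b)) := fun b hb =>
    ⟨Inv.self b, hb, red_stp (B := d.B) (c := c) (t := [c]) ⟨rfl, hcB⟩ (D_B (hI b hb)) rfl
      (hcs b hb), head_stp _ _⟩
  refine tree_fp hcB (2 + d.N) (fun b => d.cl b b (stp [c] (d.D b)))
    (fun b hb => cl_red (hadm b hb)) (fun b hb => ?_) (fun b hb => cl_ne (hadm b hb)) ?_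
  · have h1 := cl_len (hadm b hb)
    have h2 := len_stp [c] (d.D b)
    simp only [List.length_cons, List.length_nil] at h2
    show (d.cl b b (stp [c] (d.D b))).length ≤ 2 + d.N
    omega
  · intro a b ha hb hab
    show Relation.ReflTransGen (Ok b a) (d.cl a a (stp [c] (d.D a)))
      (d.cl b b (stp [c] (d.D b)))
    refine Relation.ReflTransGen.tail (path hb hab.le a _ (hadm a ha)) ⟨?_, ?_⟩
    · have h1 : d.A (d.f a) → b ≤ d.js (d.f a) := fun hA =>
        (d.B_le b hb).trans (d.hjs _ hA).1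
      refine adj_cl ((hadm a ha).mono hb hab.le) (hadm b hb) hab.le ?_ h1
        (fun hd => (nx_spec hd).1)
      exact tri (d := d) (c := c) (t := [c]) ⟨rfl, hcB⟩ (hadm a ha).red (hadm b hb).red rfl
        (hadm a ha).hd (hadm b hb).hd (adj_stp _ _) (adj_stp _ _) hcB (D_B (hI a ha))
        (D_B (hI b hb)) (hcs a ha) (hcs b hb) (cmp (hI a ha) (hI b hb) hab.le h1)
    · rintro ⟨h3, _⟩
      exact cl_ne ((hadm a ha).mono hb hab.le) h3

end Dat

end Pool.Agent.Helper43.SPH
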