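import Pool.Agent.Helper43.SPH.Tree

/-!
MP_3976d4_co: labels and climbs as in `Core`, for a set `G` of relevant points only and with free
choice of the walks attached to the irrelevant starting points.
-/

set_option autoImplicit false
set_option linter.unusedSectionVars false

universe u

namespace Pool.Agent.Helper43.SPH

/-- First layer: labels. `A x` says that the run goes on at `x`, to `js x`, the join of `s` and
`f x`; otherwise `lab x` is the label of `x`. -/
structure Lay (P : Type u) [PartialOrder P] where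
  s : P
  f : P → P
  G : P → Prop
  A : P → Prop
  js : P → P
  lab : P → P
  B : P → Prop
  ht : P → ℕ
  N : ℕ
  mono : Monotone f
  nle : ∀ x, ¬ x ≤ f x
  nge : ∀ x, ¬ f x ≤ x
  ht_lt : ∀ x y, x < y → ht x < ht y
  ht_le : ∀ x, ht x ≤ N
  hjs : ∀ x, G x → A x → s ≤ js x ∧ f x ≤ js x ∧ ∀ u, s ≤ u → f x ≤ u → js x ≤ u
  G_js : ∀ x, G x → A x → x ≤ js x → G (js x)
  B_le : ∀ b, B b → b ≤ s
  lab_B : ∀ x, G x → ¬ A x → ¬ s ≤ f x → B (lab x)
  lab_le : ∀ x, G x → ¬ A x → ¬ s ≤ f x → lab x ≤ f x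
  le_lab : ∀ x, G x → ¬ A x → ¬ s ≤ f x → ∀ b, B b → b ≤ f x → b ≤ lab x

namespace Lay

variable {P : Type u} [PartialOrder P] (d : Lay P)

/-- `x` is below every upper bound of `b` and `f x` -/
def Inv (b x : P) : Prop := ∀ u, b ≤ u → d.f x ≤ u → x ≤ u

/-- labels of relevant points whose values are above `f x` -/
def ds (x b : P) : Prop :=
  ∃ y, d.G y ∧ d.f x ≤ d.f y ∧ ¬ d.A y ∧ ¬ d.s ≤ d.f y ∧ d.lab y = b

include d in
lemma up {p : P → Prop} (h : ∀ x, (∀ y, x < y → p y) → p x) (x : P) : p x := by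
  have key : ∀ k : ℕ, ∀ x, d.N - d.ht x ≤ k → p x := by
    intro k
    induction k with
    | zero =>
      intro x hx
      refine h x (fun y hy => ?_)
      have h1 := d.ht_lt x y hy
      have h2 := d.ht_le y
      omega
    | succ k ih =>
      intro x hx
      refine h x (fun y hy => ih y ?_)
      have h1 := d.ht_lt x y hy
      have h2 := d.ht_le y
      omega
  exact key _ x le_rfl

variable {d}

lemma Inv.mono {a b x : P} (hab : a ≤ b) (h : d.Inv a x) : d.Inv b x :=
  fun u h1 h2 => h u (hab.trans h1) h2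

lemma Inv.self (b : P) : d.Inv b b := fun _ h _ => h

lemma Inv.nle {b x : P} (h : d.Inv b x) : ¬ b ≤ d.f x := fun h1 => d.nle x (h _ h1 le_rfl)

variable (d) in
/-- good points: relevant and below every upper bound of `s` and `f x` -/
def Gd (x : P) : Prop := d.G x ∧ d.Inv d.s x

lemma js_gt {x : P} (h : d.Gd x) (hA : d.A x) : x < d.js x := by
  obtain ⟨h1, h2, h3⟩ := d.hjs _ h.1 hA
  refine lt_of_le_of_ne (h.2 _ h1 h2) (fun e => d.nge x ?_)
  rw [← e] at h2
  exact h2

lemma js_gd {x : P} (h : d.Gd x) (hA : d.A x) : d.Gd (d.js x) := by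
  obtain ⟨h1, h2, h3⟩ := d.hjs _ h.1 hA
  exact ⟨d.G_js x h.1 hA (js_gt h hA).le,
    fun u h4 h5 => h3 u h4 ((d.mono (js_gt h hA).le).trans h5)⟩

variable (d) in
open Classical in
/-- the label of `x` -/
noncomputable def D (x : P) : P :=
  if h : d.A x ∧ x < d.js x then D (d.js x) else d.lab x
termination_by d.N - d.ht x
decreasing_by
  have h1 := d.ht_lt _ _ h.2
  have h2 := d.ht_le (d.js x)
  omega

lemma D_step {x : P} (h : d.Gd x) (hA : d.A x) : d.D x = d.D (d.js x) := by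
  conv_lhs => rw [D]
  rw [dif_pos ⟨hA, js_gt h hA⟩]

lemma D_stop {x : P} (hA : ¬ d.A x) : d.D x = d.lab x := by
  rw [D, dif_neg (fun h => hA h.1)]

lemma D_spec {x : P} (h : d.Gd x) :
    ∃ y, d.G y ∧ x ≤ y ∧ ¬ d.A y ∧ ¬ d.s ≤ d.f y ∧ d.D x = d.lab y := by
  revert h
  refine d.up (p := fun x => d.Gd x →
    ∃ y, d.G y ∧ x ≤ y ∧ ¬ d.A y ∧ ¬ d.s ≤ d.f y ∧ d.D x = d.lab y) ?_ x
  intro x ih h
  by_cases hA : d.A x
  · obtain ⟨y, h0, h1, h2, h3, h4⟩ := ih _ (js_gt h hA) (js_gd h hA)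
    exact ⟨y, h0, (js_gt h hA).le.trans h1, h2, h3, (D_step h hA).trans h4⟩
  · exact ⟨x, h.1, le_rfl, hA, h.2.nle, D_stop hA⟩

lemma D_B {x : P} (h : d.Gd x) : d.B (d.D x) := by
  obtain ⟨y, h0, _, h2, h3, h4⟩ := D_spec h
  rw [h4]
  exact d.lab_B _ h0 h2 h3

lemma le_D {x b : P} (h : d.Gd x) (hb : d.B b) (hx : b ≤ d.f x) : b ≤ d.D x := by
  obtain ⟨y, h0, h1, h2, h3, h4⟩ := D_spec h
  rw [h4]
  exact d.le_lab _ h0 h2 h3 b hb (hx.trans (d.mono h1))

lemma D_ds {x z : P} (h : d.Gd x) (hz : d.f z ≤ d.f x) : d.ds z (d.D x) := by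
  obtain ⟨y, h0, h1, h2, h3, h4⟩ := D_spec h
  exact ⟨y, h0, hz.trans (d.mono h1), h2, h3, h4.symm⟩

lemma D_le {x : P} (h : d.Gd x) (hA : ¬ d.A x) : d.D x ≤ d.f x := by
  rw [D_stop hA]
  exact d.lab_le _ h.1 hA h.2.nle

lemma cmp {x y : P} (hx : d.Gd x) (hy : d.Gd y) (hxy : x ≤ y)
    (h : d.A x → y ≤ d.js x) : Cmp (d.D x) (d.D y) := by
  have key : ∀ k : ℕ, ∀ x y, d.Gd x → d.Gd y → x ≤ y →
      (d.A x → y ≤ d.js x) → (d.N - d.ht x) + (d.N - d.ht y) ≤ k →
      Cmp (d.D x) (d.D y) := by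
    intro k
    induction k with
    | zero =>
      intro x y hx hy hxy h hk
      have hA : ¬ d.A x := by
        intro hA
        have h1 := d.ht_lt _ _ (js_gt hx hA)
        have h2 := d.ht_le (d.js x)
        omega
      exact Or.inl (le_D hy (D_B hx) ((D_le hx hA).trans (d.mono hxy)))
    | succ k ih =>
      intro x y hx hy hxy h hk
      by_cases hA : d.A x
      · rw [D_step hx hA]
        refine (ih y (d.js x) hy (js_gd hx hA) (h hA) (fun hA' => ?_) ?_).symm
        · obtain ⟨h1, h2, _⟩ := d.hjs _ hy.1 hA'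
          exact (d.hjs _ hx.1 hA).2.2 _ h1 ((d.mono hxy).trans h2)
        · have h1 := d.ht_lt _ _ (js_gt hx hA)
          have h2 := d.ht_le (d.js x)
          omega
      · exact Or.inl (le_D hy (D_B hx) ((D_le hx hA).trans (d.mono hxy)))
  exact key _ x y hx hy hxy h le_rfl

end Lay

/-- Second layer: climbs. -/
structure Lay2 (P : Type u) [PartialOrder P] extends Lay P where
  jd : P → P → P
  hjd : ∀ x y, G x → A x → G y → f x ≤ f y → ¬ A y → ¬ s ≤ f y →
    lab y ≤ jd (lab y) x ∧ f x ≤ jd (lab y) x ∧ ∀ u, lab y ≤ u → f x ≤ u → jd (lab y) x ≤ u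
  G_jd : ∀ x y, G x → A x → G y → f x ≤ f y → ¬ A y → ¬ s ≤ f y →
    x ≤ jd (lab y) x → G (jd (lab y) x)
  no3 : ∀ a b c, B a → B b → B c → Cmp a b → Cmp a c → Cmp b c → a = b ∨ a = c ∨ b = c

namespace Lay2

open Lay

variable {P : Type u} [PartialOrder P] (d : Lay2 P)

/-- domain of the map `x ↦ b ∨ f x` -/
def dom (b x : P) : Prop := d.A x ∧ d.toLay.ds x b

variable {d}

lemma nx_spec {b x : P} (h : d.dom b x) (hG : d.G x) :
    b ≤ d.jd b x ∧ d.f x ≤ d.jd b x ∧ ∀ u, b ≤ u → d.f x ≤ u → d.jd b x ≤ u := by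
  obtain ⟨hA, y, h0, h1, h2, h3, rfl⟩ := h
  exact d.hjd x y hG hA h0 h1 h2 h3

lemma nx_G {b x : P} (h : d.dom b x) (hG : d.G x) (hx : x ≤ d.jd b x) : d.G (d.jd b x) := by
  obtain ⟨hA, y, h0, h1, h2, h3, rfl⟩ := h
  exact d.G_jd x y hG hA h0 h1 h2 h3 hx

lemma nx_gt {b x : P} (hG : d.G x) (h : d.Inv b x) (hd : d.dom b x) : x < d.jd b x := by
  obtain ⟨h1, h2, h3⟩ := nx_spec hd hG
  refine lt_of_le_of_ne (h _ h1 h2) (fun e => d.nge x ?_)
  rw [← e] at h2
  exact h2

lemma nx_inv {b x : P} (hG : d.G x) (h : d.Inv b x) (hd : d.dom b x) : d.Inv b (d.jd b x) := by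
  obtain ⟨h1, h2, h3⟩ := nx_spec hd hG
  exact fun u h4 h5 => h3 u h4 ((d.mono (nx_gt hG h hd).le).trans h5)

lemma nx_le_js {b x : P} (hG : d.G x) (hb : d.B b) (hd : d.dom b x) : d.jd b x ≤ d.js x := by
  obtain ⟨h1, h2, _⟩ := d.hjs _ hG hd.1
  exact (nx_spec hd hG).2.2 _ ((d.B_le b hb).trans h1) h2

variable (d) in
open Classical in
/-- the lifted label at the end of the climb with base `b` from the pair `(x, t)` -/
noncomputable def cl (b x : P) (t : List P) : List P :=
  if h : d.dom b x ∧ x < d.jd b x then cl b (d.jd b x) (stp t (d.D (d.jd b x))) else t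
termination_by d.N - d.ht x
decreasing_by
  have h1 := d.ht_lt _ _ h.2
  have h2 := d.ht_le (d.jd b x)
  omega

lemma cl_step {b x : P} (t : List P) (hG : d.G x) (h : d.Inv b x) (hd : d.dom b x) :
    d.cl b x t = d.cl b (d.jd b x) (stp t (d.D (d.jd b x))) := by
  conv_lhs => rw [cl]
  rw [dif_pos ⟨hd, nx_gt hG h hd⟩]

lemma cl_stop {b x : P} (t : List P) (hd : ¬ d.dom b x) : d.cl b x t = t := by
  rw [cl, dif_neg (fun h => hd h.1)]

variable {c : P}

/-- the pair `(x, t)` is admissible for the climb with base `b` -/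
structure Adm (d : Lay2 P) (c b x : P) (t : List P) : Prop where
  G : d.G x
  inv : d.Inv b x
  bB : d.B b
  red : Red d.B c t
  hd : t.head? = some (d.D x)

namespace Adm

lemma gd {b x : P} {t : List P} (h : Adm d c b x t) : d.Gd x :=
  ⟨h.G, h.inv.mono (d.B_le b h.bB)⟩

lemma next {b x : P} {t : List P} (h : Adm d c b x t) (hd : d.dom b x) :
    Adm d c b (d.jd b x) (stp t (d.D (d.jd b x))) := by
  have h0 := nx_gt h.G h.inv hd
  have hG := nx_G hd h.G h0.le
  have h1 : d.Gd (d.jd b x) := ⟨hG, (nx_inv h.G h.inv hd).mono (d.B_le b h.bB)⟩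
  refine ⟨hG, nx_inv h.G h.inv hd, h.bB, red_stp h.red (D_B h1) h.hd ?_, head_stp _ _⟩
  exact cmp h.gd h1 h0.le (fun _ => nx_le_js h.G h.bB hd)

lemma mono {a b x : P} {t : List P} (h : Adm d c a x t) (hb : d.B b) (hab : a ≤ b) :
    Adm d c b x t := ⟨h.G, h.inv.mono hab, hb, h.red, h.hd⟩

end Adm

lemma cl_red {b x : P} {t : List P} (h : Adm d c b x t) : Red d.B c (d.cl b x t) := by
  revert t
  refine d.up (p := fun x => ∀ {t : List P}, Adm d c b x t → Red d.B c (d.cl b x t)) ?_ x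
  intro x ih t h
  by_cases hd : d.dom b x
  · rw [cl_step t h.G h.inv hd]
    exact ih _ (nx_gt h.G h.inv hd) (h.next hd)
  · rw [cl_stop t hd]
    exact h.red

lemma cl_len {b x : P} {t : List P} (h : Adm d c b x t) :
    (d.cl b x t).length ≤ t.length + (d.N - d.ht x) := by
  revert t
  refine d.up (p := fun x => ∀ {t : List P}, Adm d c b x t →
    (d.cl b x t).length ≤ t.length + (d.N - d.ht x)) ?_ x
  intro x ih t h
  by_cases hd : d.dom b x
  · rw [cl_step t h.G h.inv hd]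
    have h1 := ih _ (nx_gt h.G h.inv hd) (h.next hd)
    have h2 := len_stp t (d.D (d.jd b x))
    have h3 := d.ht_lt _ _ (nx_gt h.G h.inv hd)
    have h4 := d.ht_le (d.jd b x)
    omega
  · rw [cl_stop t hd]
    omega

lemma cl_ne {b x : P} {t : List P} (h : Adm d c b x t) : (d.cl b x t).head? ≠ some b := by
  revert t
  refine d.up (p := fun x => ∀ {t : List P}, Adm d c b x t →
    (d.cl b x t).head? ≠ some b) ?_ x
  intro x ih t h
  by_cases hd : d.dom b x
  · rw [cl_step t h.G h.inv hd]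
    exact ih _ (nx_gt h.G h.inv hd) (h.next hd)
  · rw [cl_stop t hd, h.hd]
    intro e
    have e' : d.D x = b := Option.some.inj e
    by_cases hA : d.A x
    · exact hd ⟨hA, e' ▸ D_ds h.gd le_rfl⟩
    · exact h.inv.nle (e' ▸ D_le h.gd hA)

lemma tri {x y z : P} {t t₁ t₂ : List P} (h : Red d.B c t) (h₁ : Red d.B c t₁)
    (h₂ : Red d.B c t₂) (e : t.head? = some x) (e₁ : t₁.head? = some y) (e₂ : t₂.head? = some z)
    (a₁ : Adj t t₁) (a₂ : Adj t t₂) (bx : d.B x) (bY : d.B y) (bz : d.B z) (c1 : Cmp x y)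
    (c2 : Cmp x z) (c3 : Cmp y z) : Adj t₁ t₂ := by
  refine adj_tri h h₁ h₂ a₁ a₂ ?_
  rw [e, e₁, e₂]
  rcases d.no3 x y z bx bY bz c1 c2 c3 with h | h | h
  · exact Or.inl (by rw [h])
  · exact Or.inr (Or.inl (by rw [h]))
  · exact Or.inr (Or.inr (by rw [h]))

/-- The climb with base `b` of `y` keeps its lifted label next to the one of `x ≤ y` if the run
stops at `x`. -/
lemma star {b x : P} {t : List P} (hx : Adm d c b x t) (hA : ¬ d.A x) (y : P) :
    ∀ t' : List P, Adm d c b y t' → x ≤ y → Adj t t' → Adj t (d.cl b y t') := by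
  refine d.up (p := fun y => ∀ t' : List P, Adm d c b y t' → x ≤ y → Adj t t' →
    Adj t (d.cl b y t')) ?_ y
  intro y ih t' hy hxy ha
  by_cases hd : d.dom b y
  · rw [cl_step t' hy.G hy.inv hd]
    have h1 := nx_gt hy.G hy.inv hd
    have h2 := hy.next hd
    refine ih _ h1 _ h2 (hxy.trans h1.le) ?_
    refine tri hy.red hx.red h2.red hy.hd hx.hd h2.hd ha.symm (adj_stp _ _) (D_B hy.gd)
      (D_B hx.gd) (D_B h2.gd) ?_ ?_ ?_
    · exact Or.inr (le_D hy.gd (D_B hx.gd) ((D_le hx.gd hA).trans (d.mono hxy)))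
    · exact cmp hy.gd h2.gd h1.le (fun _ => nx_le_js hy.G hy.bB hd)
    · exact Or.inl (le_D h2.gd (D_B hx.gd)
        ((D_le hx.gd hA).trans (d.mono (hxy.trans h1.le))))
  · rw [cl_stop t' hd]
    exact ha

/-- comparison of two climbs with the same base -/
lemma adj_cl {b x y : P} {t t' : List P} (hx : Adm d c b x t) (hy : Adm d c b y t') (hxy : x ≤ y)
    (ha : Adj t t') (h1 : d.A x → y ≤ d.js x) (h2 : d.dom b x → y ≤ d.jd b x) :
    Adj (d.cl b x t) (d.cl b y t') := by
  have key : ∀ k : ℕ, ∀ (x y : P) (t t' : List P), Adm d c b x t → Adm d c b y t' → x ≤ y →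
      Adj t t' → (d.A x → y ≤ d.js x) → (d.dom b x → y ≤ d.jd b x) →
      (d.N - d.ht x) + (d.N - d.ht y) ≤ k → Adj (d.cl b x t) (d.cl b y t') := by
    intro k
    induction k with
    | zero =>
      intro x y t t' hx hy hxy ha h1 h2 hk
      have hd : ¬ d.dom b x := by
        intro hd
        have h3 := d.ht_lt _ _ (nx_gt hx.G hx.inv hd)
        have h4 := d.ht_le (d.jd b x)
        omega
      have hd' : ¬ d.dom b y := by
        intro hd
        have h3 := d.ht_lt _ _ (nx_gt hy.G hy.inv hd)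
        have h4 := d.ht_le (d.jd b y)
        omega
      rw [cl_stop t hd, cl_stop t' hd']
      exact ha
    | succ k ih =>
      intro x y t t' hx hy hxy ha h1 h2 hk
      by_cases hd : d.dom b x
      · rw [cl_step t hx.G hx.inv hd]
        have h3 := nx_gt hx.G hx.inv hd
        have h4 := hx.next hd
        have h5 : d.A y → d.jd b x ≤ d.js y := by
          intro hA'
          obtain ⟨h6, h7, _⟩ := d.hjs _ hy.G hA'
          exact (nx_spec hd hx.G).2.2 _ ((d.B_le b hx.bB).trans h6) ((d.mono hxy).trans h7)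
        refine (ih y (d.jd b x) t' _ hy h4 (h2 hd) ?_ h5 (fun hd' => ?_) ?_).symm
        · refine tri hx.red hy.red h4.red hx.hd hy.hd h4.hd ha (adj_stp _ _) (D_B hx.gd)
            (D_B hy.gd) (D_B h4.gd) ?_ ?_ ?_
          · exact cmp hx.gd hy.gd hxy h1
          · exact cmp hx.gd h4.gd h3.le (fun _ => nx_le_js hx.G hx.bB hd)
          · exact cmp hy.gd h4.gd (h2 hd) h5
        · obtain ⟨h6, h7, _⟩ := nx_spec hd' hy.G
          exact (nx_spec hd hx.G).2.2 _ h6 ((d.mono hxy).trans h7)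
        · have h6 := d.ht_lt _ _ h3
          have h7 := d.ht_le (d.jd b x)
          omega
      · rw [cl_stop t hd]
        by_cases hA : d.A x
        · have hd' : ¬ d.dom b y := by
            rintro ⟨_, w, h0, h3, h4⟩
            exact hd ⟨hA, w, h0, (d.mono hxy).trans h3, h4⟩
          rw [cl_stop t' hd']
          exact ha
        · exact star hx hA y t' hy hxy ha
  exact key _ x y t t' hx hy hxy ha h1 h2 le_rfl

/-- The climb with base `b` never reaches the label `a` if `a` is not a label above `f z`. -/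
lemma tail_path {a b z : P} (hz : ¬ d.ds z a) (y : P) :
    ∀ t : List P, Adm d c b y t → d.f z ≤ d.f y →
      Relation.ReflTransGen (Ok b a) t (d.cl b y t) := by
  refine d.up (p := fun y => ∀ t : List P, Adm d c b y t → d.f z ≤ d.f y →
      Relation.ReflTransGen (Ok b a) t (d.cl b y t)) ?_ y
  intro y ih t hy hzy
  by_cases hd : d.dom b y
  · rw [cl_step t hy.G hy.inv hd]
    have h1 := nx_gt hy.G hy.inv hd
    have h2 := hy.next hd
    have h3 : d.f z ≤ d.f (d.jd b y) := hzy.trans (d.mono h1.le)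
    refine Relation.ReflTransGen.head ⟨adj_stp _ _, ?_⟩ (ih _ h1 _ h2 h3)
    rintro ⟨_, h4⟩
    rw [head_stp] at h4
    exact hz (Option.some.inj h4 ▸ D_ds h2.gd h3)
  · rw [cl_stop t hd]

/-- the path between the ends of the two climbs from the same point -/
lemma path {a b : P} (hb : d.B b) (hab : a ≤ b) (x : P) :
    ∀ t : List P, Adm d c a x t →
      Relation.ReflTransGen (Ok b a) (d.cl a x t) (d.cl b x t) := by
  refine d.up (p := fun x => ∀ t : List P, Adm d c a x t →
      Relation.ReflTransGen (Ok b a) (d.cl a x t) (d.cl b x t)) ?_ x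
  intro x ih t hx
  by_cases hd : d.dom a x
  · rw [cl_step t hx.G hx.inv hd]
    have h1 := nx_gt hx.G hx.inv hd
    have h2 := hx.next hd
    refine Relation.ReflTransGen.tail (ih _ h1 _ h2) ⟨?_, ?_⟩
    · refine (adj_cl (hx.mono hb hab) (h2.mono hb hab) h1.le (adj_stp _ _)
        (fun _ => nx_le_js hx.G hx.bB hd) (fun hd' => ?_)).symm
      obtain ⟨h3, h4, _⟩ := nx_spec hd' hx.G
      exact (nx_spec hd hx.G).2.2 _ (hab.trans h3) h4
    · rintro ⟨h3, _⟩
      exact cl_ne (h2.mono hb hab) h3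
  · rw [cl_stop t hd]
    by_cases hd' : d.dom b x
    · exact tail_path (z := x) (fun h => hd ⟨hd'.1, h⟩) x t (hx.mono hb hab) le_rfl
    · rw [cl_stop t hd']

variable (d) in
/-- the walk attached to a relevant starting point -/
noncomputable def st (b : P) : List P := stp [d.D d.s] (d.D b)

/-- Contradiction, with arbitrary walks `R b` attached to the irrelevant starting points `b`. -/
theorem absurd (d : Lay2 P) (hs : d.G d.s) (R : P → List P) (M : ℕ)
    (hR : ∀ b, d.B b → ¬ d.G b →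
      Red d.B (d.D d.s) (R b) ∧ (R b).head? ≠ some b ∧ (R b).length ≤ M)
    (h00 : ∀ a b, d.B a → d.B b → a < b → ¬ d.G a → ¬ d.G b →
      Relation.ReflTransGen (Ok b a) (R a) (R b))
    (h01 : ∀ a b, d.B a → d.B b → a < b → ¬ d.G a → d.G b →
      Relation.ReflTransGen (Ok b a) (R a) (d.cl b b (d.st b)))
    (h10 : ∀ a b, d.B a → d.B b → a < b → d.G a → ¬ d.G b →
      Relation.ReflTransGen (Ok b a) (d.cl a a (d.st a)) (R b)) : False := by
  classical
  have hgs : d.Gd d.s := ⟨hs, Inv.self d.s⟩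
  have hcB : d.B (d.D d.s) := D_B hgs
  have hI : ∀ b, d.B b → d.G b → d.Gd b := fun b hb hg =>
    ⟨hg, (Inv.self b).mono (d.B_le b hb)⟩
  have hcs : ∀ b, d.B b → d.G b → Cmp (d.D d.s) (d.D b) := fun b hb hg =>
    (cmp (hI b hb hg) hgs (d.B_le b hb) (fun hA => (d.hjs _ hg hA).1)).symm
  have hadm : ∀ b, d.B b → d.G b → Adm d (d.D d.s) b b (d.st b) := fun b hb hg =>
    ⟨hg, Inv.self b, hb, red_stp (B := d.B) (c := d.D d.s) (t := [d.D d.s]) ⟨rfl, hcB⟩
      (D_B (hI b hb hg)) rfl (hcs b hb hg), head_stp _ _⟩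
  refine tree_fp hcB (2 + d.N + M) (fun b => if d.G b then d.cl b b (d.st b) else R b)
    (fun b hb => ?_) (fun b hb => ?_) (fun b hb => ?_) ?_
  · by_cases hg : d.G b
    · simp only [if_pos hg]
      exact cl_red (hadm b hb hg)
    · simp only [if_neg hg]
      exact (hR b hb hg).1
  · by_cases hg : d.G b
    · simp only [if_pos hg]
      have h1 := cl_len (hadm b hb hg)
      have h2 : (d.st b).length ≤ 2 := len_stp [d.D d.s] (d.D b)
      omega
    · simp only [if_neg hg]
      have h1 := (hR b hb hg).2.2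
      omega
  · by_cases hg : d.G b
    · simp only [if_pos hg]
      exact cl_ne (hadm b hb hg)
    · simp only [if_neg hg]
      exact (hR b hb hg).2.1
  · intro a b ha hb hab
    by_cases ga : d.G a <;> by_cases gb : d.G b
    · simp only [if_pos ga, if_pos gb]
      refine Relation.ReflTransGen.tail (path hb hab.le a _ (hadm a ha ga)) ⟨?_, ?_⟩
      · have h1 : d.A a → b ≤ d.js a := fun hA =>
          (d.B_le b hb).trans (d.hjs _ ga hA).1
        refine adj_cl ((hadm a ha ga).mono hb hab.le) (hadm b hb gb) hab.le ?_ h1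
          (fun hd => (nx_spec hd ga).1)
        exact tri (d := d) (c := d.D d.s) (t := [d.D d.s]) ⟨rfl, hcB⟩ (hadm a ha ga).red
          (hadm b hb gb).red rfl (hadm a ha ga).hd (hadm b hb gb).hd (adj_stp _ _) (adj_stp _ _)
          hcB (D_B (hI a ha ga)) (D_B (hI b hb gb)) (hcs a ha ga) (hcs b hb gb)
          (cmp (hI a ha ga) (hI b hb gb) hab.le h1)
      · rintro ⟨h3, _⟩
        exact cl_ne ((hadm a ha ga).mono hb hab.le) h3
    · simp only [if_pos ga, if_neg gb]
      exact h10 a b ha hb hab ga gb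
    · simp only [if_neg ga, if_pos gb]
      exact h01 a b ha hb hab ga gb
    · simp only [if_neg ga, if_neg gb]
      exact h00 a b ha hb hab ga gb

end Lay2

end Pool.Agent.Helper43.SPH
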