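import Mathlib

/-!
Reduced walks in a comparability graph (the universal cover of the graph) and the fact that a
bounded map of the tree of reduced walks without fixed vertices crosses an edge.
-/

set_option autoImplicit false
set_option linter.unusedSectionVars false

universe u

namespace Pool.Agent.Helper43.SPH

variable {P : Type u} [PartialOrder P]

/-- comparable elements -/
def Cmp (a b : P) : Prop := a ≤ b ∨ b ≤ a

lemma Cmp.symm {a b : P} (h : Cmp a b) : Cmp b a := Or.symm h

/-- Reduced walks in the comparability graph of `B`, listed from the last vertex back to the base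
point `c`. -/
def Red (B : P → Prop) (c : P) : List P → Prop
  | [] => False
  | [x] => x = c ∧ B x
  | x :: y :: l => B x ∧ x ≠ y ∧ Cmp x y ∧ l.head? ≠ some x ∧ Red B c (y :: l)

/-- equal or neighbours in the tree of reduced walks -/
def Adj (t t' : List P) : Prop := t = t' ∨ (∃ v, t = v :: t') ∨ ∃ v, t' = v :: t

lemma Adj.symm {t t' : List P} (h : Adj t t') : Adj t' t := by
  rcases h with h | h | h
  · exact Or.inl h.symm
  · exact Or.inr (Or.inr h)
  · exact Or.inr (Or.inl h)

open Classical in
/-- the lift of a step to the vertex `v` -/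
noncomputable def stp (t : List P) (v : P) : List P :=
  if t.head? = some v then t else if t.tail.head? = some v then t.tail else v :: t

variable {B : P → Prop} {c : P}

lemma head_stp (t : List P) (v : P) : (stp t v).head? = some v := by
  unfold stp
  split_ifs with h1 h2
  · exact h1
  · exact h2
  · rfl

lemma adj_stp (t : List P) (v : P) : Adj t (stp t v) := by
  unfold stp
  split_ifs with h1 h2
  · exact Or.inl rfl
  · refine Or.inr (Or.inl ?_)
    cases t with
    | nil => simp at h2
    | cons x l => exact ⟨x, rfl⟩
  · exact Or.inr (Or.inr ⟨v, rfl⟩)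

lemma len_stp (t : List P) (v : P) : (stp t v).length ≤ t.length + 1 := by
  unfold stp
  split_ifs with h1 h2
  · omega
  · rw [List.length_tail]
    omega
  · simp

lemma red_tail {x : P} {t : List P} (h : Red B c (x :: t)) (ht : t ≠ []) : Red B c t := by
  cases t with
  | nil => exact absurd rfl ht
  | cons y l => exact h.2.2.2.2

lemma red_head {x : P} {t : List P} (h : Red B c (x :: t)) : B x := by
  cases t with
  | nil => exact h.2
  | cons y l => exact h.1

lemma red_stp {t : List P} {u v : P} (h : Red B c t) (hv : B v) (hu : t.head? = some u)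
    (huv : Cmp u v) : Red B c (stp t v) := by
  unfold stp
  split_ifs with h1 h2
  · exact h
  · cases t with
    | nil => simp at h2
    | cons x l =>
      refine red_tail h ?_
      rintro rfl
      simp at h2
  · cases t with
    | nil => exact h.elim
    | cons x l =>
      simp only [List.head?_cons, Option.some.injEq] at h1 hu
      subst hu
      refine ⟨hv, fun e => h1 e.symm, huv.symm, ?_, h⟩
      exact h2

lemma adj_eq {t t' : List P} (h : Red B c t) (h' : Red B c t') (ha : Adj t t')
    (he : t.head? = t'.head?) : t = t' := by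
  rcases ha with ha | ⟨v, ha⟩ | ⟨v, ha⟩
  · exact ha
  · exfalso
    subst ha
    cases t' with
    | nil => exact h'.elim
    | cons y l =>
      simp only [List.head?_cons, Option.some.injEq] at he
      exact h.2.1 he
  · exfalso
    subst ha
    cases t with
    | nil => exact h.elim
    | cons y l =>
      simp only [List.head?_cons, Option.some.injEq] at he
      exact h'.2.1 he.symm

lemma not_red_back {v w : P} {t : List P} (h : Red B c (v :: w :: t)) : t.head? ≠ some v :=
  h.2.2.2.1

lemma adj_tri {t t₁ t₂ : List P} (h : Red B c t) (h₁ : Red B c t₁) (h₂ : Red B c t₂)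
    (a₁ : Adj t t₁) (a₂ : Adj t t₂)
    (hh : t.head? = t₁.head? ∨ t.head? = t₂.head? ∨ t₁.head? = t₂.head?) : Adj t₁ t₂ := by
  rcases hh with hh | hh | hh
  · rw [← adj_eq h h₁ a₁ hh]
    exact a₂
  · rw [← adj_eq h h₂ a₂ hh]
    exact a₁.symm
  · left
    by_cases e1 : t.head? = t₁.head?
    · rw [← adj_eq h h₁ a₁ e1, ← adj_eq h h₂ a₂ (e1.trans hh)]
    · have e2 : t.head? ≠ t₂.head? := fun e => e1 (e.trans hh.symm)
      rcases a₁ with a₁ | ⟨v, a₁⟩ | ⟨v, a₁⟩
      · exact absurd (by rw [a₁]) e1
      · rcases a₂ with a₂ | ⟨v', a₂⟩ | ⟨v', a₂⟩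
        · exact absurd (by rw [a₂]) e2
        · rw [a₁] at a₂
          exact (List.cons.inj a₂).2
        · exfalso
          subst a₂
          subst a₁
          exact not_red_back h₂ hh
      · rcases a₂ with a₂ | ⟨v', a₂⟩ | ⟨v', a₂⟩
        · exact absurd (by rw [a₂]) e2
        · exfalso
          subst a₁
          subst a₂
          exact not_red_back h₁ hh.symm
        · rw [a₁, a₂] at hh
          simp only [List.head?_cons, Option.some.injEq] at hh
          rw [a₁, a₂, hh]

lemma red_suffix {t l : List P} (h : Red B c t) (hl : l <:+ t) (hne : l ≠ []) : Red B c l := by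
  induction t with
  | nil => exact h.elim
  | cons x t' ih =>
    rcases List.suffix_cons_iff.1 hl with hl | hl
    · rw [hl]
      exact h
    · have : t' ≠ [] := by
        rintro rfl
        exact hne (List.suffix_nil.1 hl)
      exact ih (red_tail h this) hl

lemma base_suffix {t : List P} (h : Red B c t) : [c] <:+ t := by
  induction t with
  | nil => exact h.elim
  | cons x t' ih =>
    cases t' with
    | nil =>
      rw [h.1]
    | cons y l =>
      exact List.suffix_cons_iff.2 (Or.inr (ih (red_tail h (by simp))))

lemma exists_cons_suffix {w t : List P} (h : w <:+ t) (hne : w ≠ t) : ∃ v, (v :: w) <:+ t := by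
  induction t with
  | nil => exact absurd (List.suffix_nil.1 h) hne
  | cons x t' ih =>
    rcases List.suffix_cons_iff.1 h with h | h
    · exact absurd h hne
    · by_cases e : w = t'
      · refine ⟨x, ?_⟩
        rw [e]
      · obtain ⟨v, hv⟩ := ih h e
        exact ⟨v, List.suffix_cons_iff.2 (Or.inr hv)⟩

lemma cross_out {t t' w : List P} {v : P} (ha : Adj t t') (h : (v :: w) <:+ t)
    (h' : ¬ (v :: w) <:+ t') : t = v :: w ∧ t' = w := by
  rcases ha with ha | ⟨x, ha⟩ | ⟨x, ha⟩
  · exact absurd (ha ▸ h) h'
  · subst ha
    rcases List.suffix_cons_iff.1 h with h | h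
    · exact ⟨h.symm, (List.cons.inj h).2.symm⟩
    · exact absurd h h'
  · subst ha
    exact absurd (List.suffix_cons_iff.2 (Or.inr h)) h'

/-- a step of the tree which does not go from the label `b` to the label `a` -/
def Ok (b a : P) (t t' : List P) : Prop := Adj t t' ∧ ¬ (t.head? = some b ∧ t'.head? = some a)

lemma keep_in {a b : P} {w t t' : List P} (hw : w.head? = some a)
    (h : Relation.ReflTransGen (Ok b a) t t') (h1 : (b :: w) <:+ t) : (b :: w) <:+ t' := by
  induction h with
  | refl => exact h1
  | tail _ hs ih =>
    by_contra hc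
    obtain ⟨e1, e2⟩ := cross_out hs.1 ih hc
    exact hs.2 ⟨by rw [e1]; rfl, by rw [e2]; exact hw⟩

lemma keep_out {a b : P} {w t t' : List P} (hw : w.head? = some b)
    (h : Relation.ReflTransGen (Ok b a) t t') (h1 : ¬ (a :: w) <:+ t) : ¬ (a :: w) <:+ t' := by
  induction h with
  | refl => exact h1
  | tail _ hs ih =>
    intro hc
    obtain ⟨e1, e2⟩ := cross_out hs.1.symm hc ih
    exact hs.2 ⟨by rw [e2]; exact hw, by rw [e1]; rfl⟩

/-- A bounded map from a height-one poset to the tree of reduced walks, without fixed vertices, must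
for some `a < b` cross the edge from `b` to `a`. -/
theorem tree_fp (hc : B c) (N : ℕ) (r : P → List P) (hr : ∀ d, B d → Red B c (r d))
    (hlen : ∀ d, B d → (r d).length ≤ N) (hne : ∀ d, B d → (r d).head? ≠ some d)
    (hp : ∀ a b, B a → B b → a < b → Relation.ReflTransGen (Ok b a) (r a) (r b)) : False := by
  have key : ∀ k : ℕ, ∃ (w : List P) (u : P), w.head? = some u ∧ B u ∧ w <:+ r u ∧
      w.length = k + 1 := by
    intro k
    induction k with
    | zero => exact ⟨[c], c, rfl, hc, base_suffix (hr c hc), rfl⟩
    | succ k ih =>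
      obtain ⟨w, u, h1, h2, h3, h4⟩ := ih
      have h5 : w ≠ r u := by
        intro e
        exact hne u h2 (e ▸ h1)
      obtain ⟨v, hv⟩ := exists_cons_suffix h3 h5
      have h6 : Red B c (v :: w) := red_suffix (hr u h2) hv (by simp)
      cases w with
      | nil => simp at h1
      | cons y l =>
        simp only [List.head?_cons, Option.some.injEq] at h1
        subst h1
        have hv' : B v := h6.1
        refine ⟨v :: y :: l, v, rfl, hv', ?_, by simpa using h4⟩
        by_contra hcon
        rcases h6.2.2.1 with h7 | h7
        · have h8 : v < y := lt_of_le_of_ne h7 h6.2.1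
          exact keep_out rfl (hp v y hv' h2 h8) hcon hv
        · have h8 : y < v := lt_of_le_of_ne h7 (fun e => h6.2.1 e.symm)
          exact hcon (keep_in rfl (hp y v h2 hv' h8) hv)
  obtain ⟨w, u, _, h2, h3, h4⟩ := key N
  have h5 := h3.length_le
  have h6 := hlen u h2
  omega

end Pool.Agent.Helper43.SPH
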