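import Pool.Agent.Helper43.SPH.CohSel
import Pool.Agent.Helper31.FX.Final
import Pool.Agent.Helper98.HX.CoverThick

/-!
MP_3976d4_co: special `s` such that every element above `s` lies below only one maximal element,
and the elements below every `c < s` (or only the values `s ∧ f w` there) are tame; and its order
dual; posets with at most five elements in every chain.
-/

set_option autoImplicit false

universe u

namespace Pool.Agent.Helper43.SPH

open Helper31.FX (CoverTame coverTame_mono coverTame_dual)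

/-- Exactly (i) and (ii); every `u > s` lies below only one maximal element; for every `c < s` the
values `s ∧ f w < c` form a tame set. -/
theorem main_unique_top (P : Type u) [PartialOrder P]
    (hfin : ∃ n : ℕ, ∀ c : Finset P, IsChain (· ≤ ·) (c : Set P) → c.card ≤ n) (s : P)
    (h1 : ∀ x : P, (∃ z : P, IsLUB ({s, x} : Set P) z) ∨ (∃ z : P, IsGLB ({s, x} : Set P) z))
    (h2 : ∀ x y : P, x < y → (¬ ∃ z : P, IsGLB ({s, x} : Set P) z) →
      ∀ m : P, IsGLB ({s, y} : Set P) m → ∃ z : P, IsLUB ({m, x} : Set P) z)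
    (hu : ∀ v : P, s < v → ∃ z : P, IsGreatest {w : P | v ≤ w} z)
    (f : P → P) (hf : Monotone f)
    (ht : ∀ c : P, c < s → CoverTame {d : P | d < c ∧ ∃ w, IsGLB ({s, f w} : Set P) d}) :
    ∃ x : P, f x = x := by
  classical
  let me : P → P := fun w => if h : ∃ z : P, IsGLB ({s, f w} : Set P) z then h.choose else s
  have hme : ∀ w, (∃ z : P, IsGLB ({s, f w} : Set P) z) → IsGLB ({s, f w} : Set P) (me w) := by
    intro w h
    simp only [me, dif_pos h]
    exact h.choose_spec
  have hW : ∀ w, w ∉ {x | ¬ ∃ z : P, IsGLB ({s, f x} : Set P) z} →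
      ∃ z : P, IsGLB ({s, f w} : Set P) z := by
    intro w hw
    simpa using hw
  refine main_coh_sel P hfin s f hf {x | ¬ ∃ z : P, IsGLB ({s, f x} : Set P) z} ?_ me ?_ ?_ ?_ ?_
  · intro x hx
    obtain ⟨j, hj⟩ := (h1 (f x)).resolve_right hx
    have hsj : s < j := by
      refine lt_of_le_of_ne (hj.1 (by simp)) (fun e => hx ⟨f x, ?_, ?_⟩)
      · rintro z (rfl | rfl)
        · rw [e]
          exact hj.1 (by simp)
        · exact le_rfl
      · intro z hz
        exact hz (by simp)
    obtain ⟨z, hz1, hz2⟩ := hu j hsj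
    refine ⟨z, ⟨(hj.1 (by simp)).trans hz1, (hj.1 (by simp)).trans hz1⟩, ?_⟩
    intro v hv
    refine hz2 (hj.2 ?_)
    rintro y (rfl | rfl)
    · exact hv.1
    · exact hv.2
  · intro w hw
    have h := hme w (hW w hw)
    exact ⟨h.1 (by simp), h.1 (by simp)⟩
  · intro v w hv hw hvw
    have h3 := hme v (hW v hv)
    have h4 := hme w (hW w hw)
    refine h4.2 ?_
    rintro z (rfl | rfl)
    · exact h3.1 (by simp)
    · exact (h3.1 (by simp)).trans (hf hvw)
  · intro x w hxw hx hw _
    refine h2 (f x) (f w) (lt_of_le_of_ne (hf hxw.le) ?_) hx (me w) (hme w (hW w hw))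
    intro e
    apply hx
    rw [e]
    exact hW w hw
  · intro u _ _ _ hus
    refine coverTame_mono ?_ (ht (me u) hus)
    rintro d ⟨hd, w, hw, _, rfl⟩
    exact ⟨hd, w, hme w (hW w hw)⟩

/-- The order dual of `main_unique_top`. -/
theorem main_unique_top_dual (P : Type u) [PartialOrder P]
    (hfin : ∃ n : ℕ, ∀ c : Finset P, IsChain (· ≤ ·) (c : Set P) → c.card ≤ n) (s : P)
    (h1 : ∀ x : P, (∃ z : P, IsLUB ({s, x} : Set P) z) ∨ (∃ z : P, IsGLB ({s, x} : Set P) z))
    (h2 : ∀ x y : P, y < x → (¬ ∃ z : P, IsLUB ({s, x} : Set P) z) →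
      ∀ m : P, IsLUB ({s, y} : Set P) m → ∃ z : P, IsGLB ({m, x} : Set P) z)
    (hu : ∀ v : P, v < s → ∃ z : P, IsLeast {w : P | w ≤ v} z)
    (f : P → P) (hf : Monotone f)
    (ht : ∀ c : P, s < c → CoverTame {d : P | c < d ∧ ∃ w, IsLUB ({s, f w} : Set P) d}) :
    ∃ x : P, f x = x := by
  obtain ⟨n, hn⟩ := hfin
  exact main_unique_top Pᵒᵈ ⟨n, fun c hc => hn c (by
    intro a ha b hb hab
    exact (hc ha hb hab).symm)⟩ (OrderDual.toDual s)
    (fun x => (h1 (OrderDual.ofDual x)).symm)
    (fun x y hxy hx m hm => h2 (OrderDual.ofDual x) (OrderDual.ofDual y) hxy hx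
      (OrderDual.ofDual m) hm)
    (fun v hv => hu (OrderDual.ofDual v) hv)
    (fun x => OrderDual.toDual (f (OrderDual.ofDual x))) (fun a b hab => hf hab)
    (fun c hc => coverTame_dual _ (ht (OrderDual.ofDual c) hc))

/-- The order dual of `main_length_four`. -/
theorem main_length_four_dual (P : Type u) [PartialOrder P]
    (h5 : ∀ c : Finset P, IsChain (· ≤ ·) (c : Set P) → c.card ≤ 5) (s : P)
    (h1 : ∀ x : P, (∃ z : P, IsLUB ({s, x} : Set P) z) ∨ (∃ z : P, IsGLB ({s, x} : Set P) z))
    (h2 : ∀ x y : P, y < x → (¬ ∃ z : P, IsLUB ({s, x} : Set P) z) →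
      ∀ m : P, IsLUB ({s, y} : Set P) m → ∃ z : P, IsGLB ({m, x} : Set P) z)
    (f : P → P) (hf : Monotone f) : ∃ x : P, f x = x :=
  main_length_four (P := Pᵒᵈ) (fun c hc => h5 c (by
    intro a ha b hb hab
    exact (hc ha hb hab).symm)) (OrderDual.toDual s)
    (fun x => (h1 (OrderDual.ofDual x)).symm)
    (fun x y hxy hx m hm => h2 (OrderDual.ofDual x) (OrderDual.ofDual y) hxy hx
      (OrderDual.ofDual m) hm)
    (fun x => OrderDual.toDual (f (OrderDual.ofDual x))) (fun a b hab => hf hab)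

/-- No chain of four elements below `s`: the sets below every `c < s` are tame. -/
theorem coverTame_of_no_four {P : Type u} [PartialOrder P] {s : P}
    (h : ∀ a b c e : P, a < b → b < c → c < e → ¬ e < s) (c : P) (hc : c < s) (E : Set P)
    (hE : ∀ d ∈ E, d < c) : CoverTame E :=
  Helper98.HX.coverTame_of_no_three E fun a _ b _ e he hab hbe => h a b e c hab hbe (hE e he) hc

/-- The order dual. -/
theorem coverTame_of_no_four_dual {P : Type u} [PartialOrder P] {s : P}
    (h : ∀ a b c e : P, b < a → c < b → e < c → ¬ s < e) (c : P) (hc : s < c) (E : Set P)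
    (hE : ∀ d ∈ E, c < d) : CoverTame E :=
  Helper98.HX.coverTame_of_no_three E fun a ha b _ e _ hab hbe => h e b a c hbe hab (hE a ha) hc

end Pool.Agent.Helper43.SPH
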